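import Pool.Agent.Helper47.CX.Iface

/-!
Toy real points for project CX: all the letters are integral translations.
-/

set_option autoImplicit false

namespace Pool.CX.Toy66

open Pool.CX Pool.Agent.Helper66.AF

/-- an integral vector -/
noncomputable def trv (t : ℤ × ℤ × ℤ) : E3 := ![(t.1 : ℝ), (t.2.1 : ℝ), (t.2.2 : ℝ)]

lemma trv_add (s t : ℤ × ℤ × ℤ) : trv (s + t) = trv s + trv t := by
  ext i; fin_cases i <;> simp [trv]

/-- the box of a translation -/
def tbox (t : ℤ × ℤ × ℤ) : ABox where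
  r0 := ⟨(1, 1), (0, 0), (0, 0), (t.1, t.1)⟩
  r1 := ⟨(0, 0), (1, 1), (0, 0), (t.2.1, t.2.1)⟩
  r2 := ⟨(0, 0), (0, 0), (1, 1), (t.2.2, t.2.2)⟩

noncomputable def trA (t : ℤ × ℤ × ℤ) : Aff3 := AffineEquiv.constVAdd ℝ E3 (trv t)

lemma trA_apply (t : ℤ × ℤ × ℤ) (x : E3) : trA t x = trv t + x := rfl

noncomputable def transPoint (let' : ℕ → ℤ × ℤ × ℤ) (k : ℕ) (rels : List (ℕ × ℕ × ℕ)) (bds : List ℕ)
    (h0 : let' 0 = 0) (hrel : (rels.all fun r => decide (let' r.1 + let' r.2.1 = let' r.2.2)) = true)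
    (hbds : (bds.all fun i => decide ((let' i).2.2 = 0)) = true) :
    RealPoint k rels bds (fun i => tbox (let' i)) ((1 : ℤ) : ℝ) where
  A i := trA (let' i)
  zero := by
    rw [h0]
    ext x i
    simp only [trA_apply, AffineEquiv.coe_one, id]
    fin_cases i <;> simp [trv]
  rel := by
    intro r hr
    have h := List.all_eq_true.mp hrel r hr
    simp only [decide_eq_true_eq] at h
    ext x i
    simp only [AffineEquiv.mul_def, AffineEquiv.trans_apply, trA_apply]
    rw [← h, trv_add, add_assoc]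
  comm := by
    intro i hi x
    have h := List.all_eq_true.mp hbds i hi
    simp only [decide_eq_true_eq] at h
    ext j
    simp only [trA_apply, sigmaL_apply]
    fin_cases j <;> simp [trv, h]
  mem := by
    intro i _
    refine ⟨⟨1, 0, 0, ((let' i).1 : ℝ), ?_, ?_, ?_, ?_, ?_⟩, ⟨0, 1, 0, ((let' i).2.1 : ℝ), ?_, ?_, ?_, ?_, ?_⟩,
      ⟨0, 0, 1, ((let' i).2.2 : ℝ), ?_, ?_, ?_, ?_, ?_⟩⟩
    all_goals first
      | (intro x; simp [trA_apply, trv]; try ring)
      | simp [InI, tbox]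

end Pool.CX.Toy66
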