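import Pool.Agent.Helper47.CX.Main
import Pool.Agent.Helper93.CX.LabW
import Pool.Agent.Helper66.CX.TransPoint

/-!
Toy test of the geometric chain of project CX: the double of T^2 x [0,2] (grid 3 x 3) is a closed
affine 3-manifold.
-/

set_option autoImplicit false
namespace Pool.CX.Toy66
open Pool.CX Helper69.CX Pool.Agent.Helper66.AF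
def T_0 : List (Bool × Nat × Nat × Nat × Nat) := [(true, 0, 3, 4, 22), (true, 3, 4, 22, 25), (false, 3, 4, 7, 25), (true, 3, 6, 7, 25), (false, 1, 6, 7, 25), (true, 1, 2, 7, 25), (true, 2, 7, 25, 26), (false, 4, 7, 25, 26), (true, 4, 7, 8, 26), (false, 2, 7, 8, 26), (false, 0, 2, 8, 26), (true, 0, 6, 8, 26), (false, 5, 6, 8, 26), (false, 4, 5, 8, 26), (true, 4, 5, 23, 26), (true, 1, 4, 5, 23), (false, 1, 2, 5, 23), (false, 2, 3, 5, 23), (false, 3, 5, 23, 24), (false, 5, 23, 24, 26), (true, 5, 6, 24, 26), (false, 0, 6, 24, 26), (true, 0, 1, 6, 24), (true, 1, 6, 24, 25), (false, 3, 6, 24, 25), (true, 3, 21, 24, 25), (false, 16, 21,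 24, 25), (true, 16, 19, 24, 25), (false, 1, 19, 24, 25), (false, 0, 1, 19, 24), (true, 0, 1, 19, 22), (false, 0, 1, 4, 22), (false, 1, 4, 22, 23), (false, 4, 22, 23, 26), (true, 4, 22, 25, 26), (false, 17, 22, 25, 26), (true, 17, 20, 25, 26), (false, 2, 20, 25, 26), (false, 1, 2, 20, 25), (true, 1, 2, 20, 23), (false, 2, 20, 21, 23), (true, 2, 3, 21, 23), (true, 3, 21, 23, 24), (false, 15, 21, 23, 24), (false, 15, 16, 21, 24), (true, 15, 16, 19, 24), (false, 15, 18, 19, 24), (true, 0, 18, 19, 24), (false, 0, 18, 19, 22), (true, 0, 18, 21, 22), (false, 0, 3, 21, 22), (false, 3, 21, 22, 25), (true, 16, 21, 22, 25), (false, 16, 17,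 22, 25), (true, 16, 17, 20, 25), (false, 16, 19, 20, 25), (true, 1, 19, 20, 25), (false, 1, 19, 20, 23), (true, 1, 19, 22, 23), (false, 14, 19, 22, 23), (true, 14, 17, 22, 23), (true, 17, 22, 23, 26), (true, 17, 23, 24, 26), (false, 17, 18, 24, 26), (true, 17, 18, 20, 26), (false, 0, 18, 20, 26), (true, 0, 18, 20, 21), (false, 0, 2, 20, 21), (true, 0, 2, 3, 21), (false, 0, 2, 3, 30), (true, 0, 3, 30, 31), (false, 0, 3, 4, 31), (false, 3, 4, 31, 34), (true, 3, 4, 7, 34), (false, 3, 6, 7, 34), (true, 1, 6, 7, 34), (false, 1, 2, 7, 34), (false, 2, 7, 34, 35), (true, 4, 7, 34, 35), (false, 4, 7, 8, 35), (true, 2, 7, 8, 35), (true, 0,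 2, 8, 35), (false, 0, 6, 8, 35), (true, 5, 6, 8, 35), (true, 4, 5, 8, 35), (false, 4, 5, 32, 35), (false, 1, 4, 5, 32), (true, 1, 2, 5, 32), (true, 2, 3, 5, 32), (true, 3, 5, 32, 33), (true, 5, 32, 33, 35), (false, 5, 6, 33, 35), (true, 0, 6, 33, 35), (false, 0, 1, 6, 33), (false, 1, 6, 33, 34), (true, 3, 6, 33, 34), (false, 3, 30, 33, 34), (true, 16, 30, 33, 34), (false, 16, 28, 33, 34), (true, 1, 28, 33, 34)]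
def T_1 : List (Bool × Nat × Nat × Nat × Nat) := [(true, 0, 1, 28, 33), (false, 0, 1, 28, 31), (true, 0, 1, 4, 31), (true, 1, 4, 31, 32), (true, 4, 31, 32, 35), (false, 4, 31, 34, 35), (true, 17, 31, 34, 35), (false, 17, 29, 34, 35), (true, 2, 29, 34, 35), (true, 1, 2, 29, 34), (false, 1, 2, 29, 32), (true, 2, 29, 30, 32), (false, 2, 3, 30, 32), (false, 3, 30, 32, 33), (true, 15, 30, 32, 33), (true, 15, 16, 30, 33), (false, 15, 16, 28, 33), (true, 15, 27, 28, 33), (false, 0, 27, 28, 33), (true, 0, 27, 28, 31), (false, 0, 27, 30, 31), (true, 13, 27, 30, 31), (false, 13, 16, 30, 31), (false, 16, 30, 31, 34), (true, 3, 30, 31, 34),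 (true, 16, 17, 31, 34), (false, 16, 17, 29, 34), (true, 16, 28, 29, 34), (false, 1, 28, 29, 34), (true, 1, 28, 29, 32), (false, 1, 28, 31, 32), (true, 14, 28, 31, 32), (false, 14, 17, 31, 32), (false, 17, 31, 32, 35), (false, 17, 32, 33, 35), (true, 17, 27, 33, 35), (false, 17, 27, 29, 35), (true, 0, 27, 29, 35), (false, 0, 27, 29, 30), (true, 0, 2, 29, 30), (false, 0, 2, 29, 35), (true, 12, 27, 29, 30), (true, 12, 13, 27, 30), (false, 12, 13, 16, 30), (true, 12, 13, 16, 21), (false, 12, 13, 18, 21), (false, 13, 18, 21, 22), (true, 13, 16, 21, 22), (false, 13, 16, 17, 22), (true, 13, 14, 17, 22), (false, 13, 14, 19, 22), (true,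 13, 18, 19, 22), (true, 10, 13, 18, 19), (false, 10, 15, 18, 19), (true, 10, 15, 16, 19), (false, 10, 11, 16, 19), (true, 10, 11, 14, 19), (false, 10, 13, 14, 19), (true, 10, 13, 14, 28), (false, 10, 13, 27, 28), (false, 13, 27, 28, 31), (true, 13, 14, 28, 31), (false, 13, 14, 17, 31), (true, 13, 16, 17, 31), (true, 10, 15, 27, 28), (false, 10, 15, 16, 28), (true, 10, 11, 16, 28), (false, 10, 11, 14, 28), (false, 11, 14, 28, 29), (false, 14, 28, 29, 32), (false, 14, 29, 30, 32), (true, 14, 15, 30, 32), (false, 14, 15, 17, 32), (true, 14, 15, 17, 23), (true, 15, 17, 23, 24), (false, 15, 17, 18, 24), (false, 9, 15, 17, 18), (false,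 9, 10, 15, 18), (true, 9, 10, 13, 18), (false, 9, 12, 13, 18), (false, 9, 11, 12, 18), (false, 11, 12, 18, 20), (true, 11, 12, 14, 20), (true, 11, 14, 19, 20), (true, 14, 19, 20, 23), (true, 14, 20, 21, 23), (false, 14, 15, 21, 23), (false, 12, 14, 15, 21), (true, 12, 14, 20, 21), (false, 12, 18, 20, 21), (false, 12, 15, 16, 21), (true, 12, 15, 16, 30), (true, 12, 14, 15, 30), (false, 12, 14, 29, 30), (false, 11, 12, 14, 29), (true, 11, 12, 27, 29), (false, 11, 17, 27, 29), (false, 11, 16, 17, 29), (true, 11, 16, 17, 20), (false, 11, 16, 19, 20)]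
def T_2 : List (Bool × Nat × Nat × Nat × Nat) := [(true, 11, 17, 18, 20), (true, 9, 11, 17, 18), (false, 9, 11, 17, 27), (true, 9, 11, 12, 27), (true, 9, 12, 13, 27), (false, 9, 10, 13, 27), (true, 9, 10, 15, 27), (true, 9, 15, 17, 27), (true, 15, 17, 27, 33), (false, 15, 17, 32, 33), (true, 11, 16, 28, 29), (false, 0, 27, 33, 35), (false, 3, 5, 6, 33), (true, 3, 5, 6, 24), (true, 0, 2, 20, 26), (true, 0, 18, 24, 26)]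
def T : List (Bool × Nat × Nat × Nat × Nat) := T_0 ++ (T_1 ++ (T_2))
def ps_0 : List Nat := [0, 0, 0, 0, 0, 0, 0, 0, 0, 0, 0, 0, 0, 0, 0, 0, 0, 0, 0, 0, 0, 0, 0, 0, 0, 0, 0, 0, 0, 0, 0, 0, 0, 0, 0, 0, 0, 0, 0, 0, 0, 0, 0, 0, 0, 0, 0, 0, 0, 0, 0, 0, 0, 0, 0, 0, 0, 0, 0, 0, 0, 0, 0, 0, 0, 0, 0, 0, 0, 0, 0, 0, 0, 0, 0, 0, 0, 0, 0, 0, 0, 0, 0, 0, 0, 0, 0, 0, 0, 0, 0, 0, 0, 0, 0, 0, 0, 0, 0, 0, 0, 0, 0, 0, 0, 0, 0, 0, 0, 0, 0, 0, 0, 0, 0, 0, 0, 0, 0, 0, 0, 0, 0, 0, 1, 0, 0, 0, 0, 0, 0, 0, 0, 0, 0, 0, 0, 0, 0, 0, 2, 0, 0, 0, 0, 0, 0, 0, 0, 0, 0, 0, 0, 0, 0, 0, 0, 0, 0, 0, 0, 0, 0, 4, 0, 0, 0, 0, 0, 0, 0, 0, 0, 0, 0, 0, 0, 0, 0, 0, 0,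 0, 0, 0, 0, 0, 0, 0, 0, 2, 0, 0, 0, 0, 0, 0, 0, 0, 0, 1, 0, 0, 0, 0, 0, 0, 0, 0, 0, 11, 53, 42, 0, 30, 3]
def ps : List Nat := ps_0
def letL_0 : List (ℤ × ℤ × ℤ) := [(Int.ofNat 0, Int.ofNat 0, Int.ofNat 0), (Int.ofNat 0, Int.ofNat 0, Int.negSucc 1), (Int.ofNat 0, Int.ofNat 0, Int.ofNat 2), (Int.ofNat 0, Int.ofNat 3, Int.ofNat 0), (Int.ofNat 0, Int.negSucc 2, Int.ofNat 0), (Int.ofNat 0, Int.ofNat 3, Int.negSucc 1), (Int.ofNat 0, Int.negSucc 2, Int.ofNat 2), (Int.ofNat 0, Int.negSucc 2, Int.negSucc 1), (Int.ofNat 0, Int.ofNat 3, Int.ofNat 2), (Int.negSucc 2, Int.ofNat 0, Int.ofNat 0), (Int.ofNat 3, Int.ofNat 0, Int.ofNat 0), (Int.ofNat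 3, Int.ofNat 0, Int.negSucc 1), (Int.negSucc 2, Int.ofNat 0, Int.ofNat 2), (Int.negSucc 2, Int.negSucc 2, Int.ofNat 0), (Int.ofNat 3, Int.ofNat 3, Int.ofNat 0), (Int.ofNat 3, Int.ofNat 3, Int.negSucc 1), (Int.negSucc 2, Int.negSucc 2, Int.ofNat 2)]
def letL : List (ℤ × ℤ × ℤ) := letL_0
def let1 (i : ℕ) : ℤ × ℤ × ℤ := letL.getD i (0, 0, 0)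
def rt : RT := (RT.node (RT.node (RT.node (RT.node (RT.node (RT.node (RT.node (RT.node RT.nil 0 0 0 RT.nil) 0 1 1 RT.nil) 0 2 2 (RT.node RT.nil 0 3 3 RT.nil)) 0 4 4 (RT.node (RT.node RT.nil 0 5 5 RT.nil) 0 6 6 (RT.node RT.nil 0 7 7 RT.nil))) 0 8 8 (RT.node (RT.node (RT.node RT.nil 0 9 9 RT.nil) 0 10 10 (RT.node RT.nil 0 11 11 RT.nil)) 0 12 12 (RT.node (RT.node RT.nil 0 13 13 RT.nil) 0 14 14 (RT.node RT.nil 0 15 15 RT.nil)))) 0 16 16 (RT.node (RT.node (RT.node (RT.node (RT.node RT.nil 1 0 1 RT.nil) 1 2 0 RT.nil) 1 3 5 (RT.node RT.nil 1 4 7 RT.nil)) 1 6 4 (RT.node (RT.node RT.nil 1 8 3 RT.nil) 1 10 11 (RT.node RT.nil 1 12 9 RT.nil)))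 1 14 15 (RT.node (RT.node (RT.node RT.nil 1 16 13 RT.nil) 2 0 2 (RT.node RT.nil 2 1 0 RT.nil)) 2 3 8 (RT.node (RT.node RT.nil 2 4 6 RT.nil) 2 5 3 (RT.node RT.nil 2 7 4 RT.nil))))) 2 9 12 (RT.node (RT.node (RT.node (RT.node (RT.node (RT.node RT.nil 2 11 10 RT.nil) 2 13 16 RT.nil) 2 15 14 (RT.node RT.nil 3 0 3 RT.nil)) 3 1 5 (RT.node (RT.node RT.nil 3 2 8 RT.nil) 3 4 0 (RT.node RT.nil 3 6 2 RT.nil))) 3 7 1 (RT.node (RT.node (RT.node RT.nil 3 10 14 RT.nil) 3 11 15 (RT.node RT.nil 3 13 9 RT.nil)) 3 16 12 (RT.node (RT.node RT.nil 4 0 4 RT.nil) 4 1 7 (RT.node RT.nil 4 2 6 RT.nil)))) 4 3 0 (RT.node (RT.node (RT.node (RT.node RT.nil 4 5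 1 RT.nil) 4 8 2 (RT.node RT.nil 4 9 13 RT.nil)) 4 12 16 (RT.node (RT.node RT.nil 4 14 10 RT.nil) 4 15 11 (RT.node RT.nil 5 0 5 RT.nil))) 5 2 3 (RT.node (RT.node (RT.node RT.nil 5 4 1 RT.nil) 5 6 0 (RT.node RT.nil 5 10 15 RT.nil)) 5 16 9 (RT.node (RT.node RT.nil 6 0 6 RT.nil) 6 1 4 (RT.node RT.nil 6 3 2 RT.nil)))))) 6 5 0 (RT.node (RT.node (RT.node (RT.node (RT.node (RT.node (RT.node RT.nil 6 9 16 RT.nil) 6 15 10 RT.nil) 7 0 7 (RT.node RT.nil 7 2 4 RT.nil)) 7 3 1 (RT.node (RT.node RT.nil 7 8 0 RT.nil) 8 0 8 (RT.node RT.nil 8 1 3 RT.nil))) 8 4 2 (RT.node (RT.node (RT.node RT.nil 8 7 0 RT.nil) 9 0 9 (RT.node RT.nil 9 2 12 RT.nil))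 9 4 13 (RT.node (RT.node RT.nil 9 6 16 RT.nil) 9 10 0 (RT.node RT.nil 9 11 1 RT.nil)))) 9 14 3 (RT.node (RT.node (RT.node (RT.node (RT.node RT.nil 9 15 5 RT.nil) 10 0 10 RT.nil) 10 1 11 (RT.node RT.nil 10 3 14 RT.nil)) 10 5 15 (RT.node (RT.node RT.nil 10 9 0 RT.nil) 10 12 2 (RT.node RT.nil 10 13 4 RT.nil))) 10 16 6 (RT.node (RT.node (RT.node RT.nil 11 0 11 RT.nil) 11 2 10 (RT.node RT.nil 11 3 15 RT.nil)) 11 9 1 (RT.node (RT.node RT.nil 11 12 0 RT.nil) 11 16 4 (RT.node RT.nil 12 0 12 RT.nil))))) 12 1 9 (RT.node (RT.node (RT.node (RT.node (RT.node (RT.node RT.nil 12 4 16 RT.nil) 12 10 2 RT.nil) 12 11 0 (RT.node RT.nil 12 15 3 RT.nil))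 13 0 13 (RT.node (RT.node RT.nil 13 2 16 RT.nil) 13 3 9 (RT.node RT.nil 13 10 4 RT.nil))) 13 14 0 (RT.node (RT.node (RT.node RT.nil 13 15 1 RT.nil) 14 0 14 (RT.node RT.nil 14 1 15 RT.nil)) 14 4 10 (RT.node (RT.node RT.nil 14 9 3 RT.nil) 14 13 0 (RT.node RT.nil 14 16 2 RT.nil)))) 15 0 15 (RT.node (RT.node (RT.node (RT.node RT.nil 15 2 14 RT.nil) 15 4 11 (RT.node RT.nil 15 6 10 RT.nil)) 15 9 5 (RT.node (RT.node RT.nil 15 12 3 RT.nil) 15 13 1 (RT.node RT.nil 15 16 0 RT.nil))) 16 0 16 (RT.node (RT.node (RT.node RT.nil 16 1 13 RT.nil) 16 3 12 (RT.node RT.nil 16 5 9 RT.nil)) 16 10 6 (RT.node (RT.node RT.nil 16 11 4 RT.nil) 16 14 2 (RT.node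 RT.nil 16 15 0 RT.nil)))))))
def bds : List ℕ := [0, 3, 4, 9, 10, 13, 14]
def tab : ℕ := 0x30000000a000e0200000000000000000000030000000a000e00000000000000000000000a0a000202000000000000000000000000000a0a000000000000040000040000000a0a060202000000000000000000040000000a0a00000000000000030000030000000200080200000000000000000000030000000000000000000000000000000000020200020200000000000000000000000000000000000000000004000004000000020206020200000000000000000004000000000000000909000000030000030c0c000200080200000000000000000000030000000000000909000000000000000c0c02020002020000000000000000000000000000000d000900000004000010000c0002020602020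0000000000000000000000000000101050101000b000f0000030000000a000e00000000000000000000000000000001010001010b0b000000000000000a0a000000000000000000000000000000000001070001000b0b040000040000000a0a0000000000000000000000000000000000010105010100000003000003000000000000000000000000000000000000000000010100010100000000000000000000000000000000000000000000000000000000010700010000000400000400000000000000000000000000000000000000000000010105090900000003000003000000000000000000000000000000000000000000010100090900000000000000000000000000000000000000000000000000000000010d00090000000400000000000000000000000000000000000000000000000000000000000000000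0000000030000000a000e00000000000000000000000000000000000000000000000000000000000a0a000000000000040000000000000000000000000000000000040000040000000a0a0000000000000003000000000000000000000000000000000003000003000000000000000000000000000000000000000000000000000000000000000000000000000000000000000400000000000000000000000000000000000400000400000000000000090900000003000000000000000000000000090900000003000003000000000000090900000000000000000000000000000000090900000000000000000000000d00090000000400000000000000000000000d0009000000040000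
def lab : ℕ → ℕ → ℕ := labP 8 32 tab
def posL_0 : List Pt := [⟨Int.ofNat 0, Int.ofNat 0, Int.ofNat 0, 1⟩, ⟨Int.ofNat 0, Int.ofNat 1, Int.ofNat 0, 1⟩, ⟨Int.ofNat 0, Int.ofNat 2, Int.ofNat 0, 1⟩, ⟨Int.ofNat 1, Int.ofNat 0, Int.ofNat 0, 1⟩, ⟨Int.ofNat 1, Int.ofNat 1, Int.ofNat 0, 1⟩, ⟨Int.ofNat 1, Int.ofNat 2, Int.ofNat 0, 1⟩, ⟨Int.ofNat 2, Int.ofNat 0, Int.ofNat 0, 1⟩, ⟨Int.ofNat 2, Int.ofNat 1, Int.ofNat 0, 1⟩, ⟨Int.ofNat 2, Int.ofNat 2, Int.ofNat 0, 1⟩, ⟨Int.ofNat 0, Int.ofNat 0, Int.ofNat 0, 1⟩, ⟨Int.ofNat 0, Int.ofNat 1, Int.ofNat 0, 1⟩, ⟨Int.ofNat 0, Int.ofNat 2, Int.ofNat 0, 1⟩, ⟨Int.ofNat 1, Int.ofNat 0, Int.ofNat 0, 1⟩, ⟨Int.ofNat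 1, Int.ofNat 1, Int.ofNat 0, 1⟩, ⟨Int.ofNat 1, Int.ofNat 2, Int.ofNat 0, 1⟩, ⟨Int.ofNat 2, Int.ofNat 0, Int.ofNat 0, 1⟩, ⟨Int.ofNat 2, Int.ofNat 1, Int.ofNat 0, 1⟩, ⟨Int.ofNat 2, Int.ofNat 2, Int.ofNat 0, 1⟩, ⟨Int.ofNat 0, Int.ofNat 0, Int.ofNat 1, 1⟩, ⟨Int.ofNat 0, Int.ofNat 1, Int.ofNat 1, 1⟩, ⟨Int.ofNat 0, Int.ofNat 2, Int.ofNat 1, 1⟩, ⟨Int.ofNat 1, Int.ofNat 0, Int.ofNat 1, 1⟩, ⟨Int.ofNat 1, Int.ofNat 1, Int.ofNat 1, 1⟩, ⟨Int.ofNat 1, Int.ofNat 2, Int.ofNat 1, 1⟩, ⟨Int.ofNat 2, Int.ofNat 0, Int.ofNat 1, 1⟩, ⟨Int.ofNat 2, Int.ofNat 1, Int.ofNat 1, 1⟩, ⟨Int.ofNat 2, Int.ofNat 2, Int.ofNat 1, 1⟩]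
def posL : List Pt := posL_0
def pos (u : ℕ) : Pt := posL.getD u ⟨0, 0, 0, 1⟩
theorem chk : chkComb 36 64 20 T ps = true := by decide +kernel
theorem chkInj : Helper69.CX.chkInj 64 27 T = true := by decide +kernel
noncomputable def R : RealPoint 17 rt.toList bds (fun i => Toy66.tbox (let1 i)) ((1 : ℤ) : ℝ) :=
  Toy66.transPoint let1 17 rt.toList bds rfl (by decide +kernel) (by decide +kernel)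
theorem chkL : chkLabW 36 27 18 lab rt.has (bdHas bds) T = true := by decide +kernel
theorem labs : Labels ((TF 36 T).map orient) (fun w : Fin 36 => foldN 27 18 w.1) (fun w => sideN 27 w.1)
    (fun u u' => R.A (lab u u')) (fun u => (pos u).val) :=
  labels_of_realPoint R (fun _ h => h) (labP_self _ _ _) chkL (by
    have h : ∀ u < 18, (pos u).z = 0 := by decide +kernel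
    intro u hu
    simp [Pt.val, h u hu])
def cert_0 : List VCert := [⟨⟨Int.ofNat 0, Int.ofNat 0, Int.ofNat 0, 1⟩, [⟨1, 0, ⟨Int.ofNat 0, Int.ofNat 1, Int.ofNat 0, 1⟩, false, 1, ⟨⟨Int.ofNat 0, 0⟩, ⟨Int.ofNat 1, 0⟩, ⟨Int.ofNat 0, 0⟩⟩⟩,
  ⟨2, 4, ⟨Int.ofNat 0, Int.ofNat 2, Int.ofNat 0, 1⟩, false, 1, ⟨⟨Int.ofNat 0, 0⟩, ⟨Int.negSucc 0, 0⟩, ⟨Int.ofNat 0, 0⟩⟩⟩,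
  ⟨3, 0, ⟨Int.ofNat 1, Int.ofNat 0, Int.ofNat 0, 1⟩, false, 1, ⟨⟨Int.ofNat 1, 0⟩, ⟨Int.ofNat 0, 0⟩, ⟨Int.ofNat 0, 0⟩⟩⟩,
  ⟨4, 0, ⟨Int.ofNat 1, Int.ofNat 1, Int.ofNat 0, 1⟩, false, 1, ⟨⟨Int.ofNat 1, 0⟩, ⟨Int.ofNat 1, 0⟩, ⟨Int.ofNat 0, 0⟩⟩⟩,
  ⟨6, 9, ⟨Int.ofNat 2, Int.ofNat 0, Int.ofNat 0, 1⟩, false, 1, ⟨⟨Int.negSucc 0, 0⟩, ⟨Int.ofNat 0, 0⟩, ⟨Int.ofNat 0, 0⟩⟩⟩,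
  ⟨8, 13, ⟨Int.ofNat 2, Int.ofNat 2, Int.ofNat 0, 1⟩, false, 1, ⟨⟨Int.negSucc 0, 0⟩, ⟨Int.negSucc 0, 0⟩, ⟨Int.ofNat 0, 0⟩⟩⟩,
  ⟨18, 0, ⟨Int.ofNat 0, Int.ofNat 0, Int.ofNat 1, 1⟩, false, 1, ⟨⟨Int.ofNat 0, 0⟩, ⟨Int.ofNat 0, 0⟩, ⟨Int.ofNat 1, 0⟩⟩⟩,
  ⟨19, 0, ⟨Int.ofNat 0, Int.ofNat 1, Int.ofNat 1, 1⟩, false, 1, ⟨⟨Int.ofNat 0, 0⟩, ⟨Int.ofNat 1, 0⟩, ⟨Int.ofNat 1, 0⟩⟩⟩,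
  ⟨20, 4, ⟨Int.ofNat 0, Int.ofNat 2, Int.ofNat 1, 1⟩, false, 1, ⟨⟨Int.ofNat 0, 0⟩, ⟨Int.negSucc 0, 0⟩, ⟨Int.ofNat 1, 0⟩⟩⟩,
  ⟨21, 0, ⟨Int.ofNat 1, Int.ofNat 0, Int.ofNat 1, 1⟩, false, 1, ⟨⟨Int.ofNat 1, 0⟩, ⟨Int.ofNat 0, 0⟩, ⟨Int.ofNat 1, 0⟩⟩⟩,
  ⟨22, 0, ⟨Int.ofNat 1, Int.ofNat 1, Int.ofNat 1, 1⟩, false, 1, ⟨⟨Int.ofNat 1, 0⟩, ⟨Int.ofNat 1, 0⟩, ⟨Int.ofNat 1, 0⟩⟩⟩,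
  ⟨24, 9, ⟨Int.ofNat 2, Int.ofNat 0, Int.ofNat 1, 1⟩, false, 1, ⟨⟨Int.negSucc 0, 0⟩, ⟨Int.ofNat 0, 0⟩, ⟨Int.ofNat 1, 0⟩⟩⟩,
  ⟨26, 13, ⟨Int.ofNat 2, Int.ofNat 2, Int.ofNat 1, 1⟩, false, 1, ⟨⟨Int.negSucc 0, 0⟩, ⟨Int.negSucc 0, 0⟩, ⟨Int.ofNat 1, 0⟩⟩⟩,
  ⟨27, 0, ⟨Int.ofNat 0, Int.ofNat 0, Int.ofNat 1, 1⟩, true, 1, ⟨⟨Int.ofNat 0, 0⟩, ⟨Int.ofNat 0, 0⟩, ⟨Int.negSucc 0, 0⟩⟩⟩,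
  ⟨28, 0, ⟨Int.ofNat 0, Int.ofNat 1, Int.ofNat 1, 1⟩, true, 1, ⟨⟨Int.ofNat 0, 0⟩, ⟨Int.ofNat 1, 0⟩, ⟨Int.negSucc 0, 0⟩⟩⟩,
  ⟨29, 4, ⟨Int.ofNat 0, Int.ofNat 2, Int.ofNat 1, 1⟩, true, 1, ⟨⟨Int.ofNat 0, 0⟩, ⟨Int.negSucc 0, 0⟩, ⟨Int.negSucc 0, 0⟩⟩⟩,
  ⟨30, 0, ⟨Int.ofNat 1, Int.ofNat 0, Int.ofNat 1, 1⟩, true, 1, ⟨⟨Int.ofNat 1, 0⟩, ⟨Int.ofNat 0, 0⟩, ⟨Int.negSucc 0, 0⟩⟩⟩,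
  ⟨31, 0, ⟨Int.ofNat 1, Int.ofNat 1, Int.ofNat 1, 1⟩, true, 1, ⟨⟨Int.ofNat 1, 0⟩, ⟨Int.ofNat 1, 0⟩, ⟨Int.negSucc 0, 0⟩⟩⟩,
  ⟨33, 9, ⟨Int.ofNat 2, Int.ofNat 0, Int.ofNat 1, 1⟩, true, 1, ⟨⟨Int.negSucc 0, 0⟩, ⟨Int.ofNat 0, 0⟩, ⟨Int.negSucc 0, 0⟩⟩⟩,
  ⟨35, 13, ⟨Int.ofNat 2, Int.ofNat 2, Int.ofNat 1, 1⟩, true, 1, ⟨⟨Int.negSucc 0, 0⟩, ⟨Int.negSucc 0, 0⟩, ⟨Int.negSucc 0, 0⟩⟩⟩], (Int.ofNat 12, Int.ofNat 9, Int.ofNat 5)⟩,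
⟨⟨Int.ofNat 0, Int.ofNat 1, Int.ofNat 0, 1⟩, [⟨0, 0, ⟨Int.ofNat 0, Int.ofNat 0, Int.ofNat 0, 1⟩, false, 1, ⟨⟨Int.ofNat 0, 0⟩, ⟨Int.negSucc 0, 0⟩, ⟨Int.ofNat 0, 0⟩⟩⟩,
  ⟨2, 0, ⟨Int.ofNat 0, Int.ofNat 2, Int.ofNat 0, 1⟩, false, 1, ⟨⟨Int.ofNat 0, 0⟩, ⟨Int.ofNat 1, 0⟩, ⟨Int.ofNat 0, 0⟩⟩⟩,
  ⟨4, 0, ⟨Int.ofNat 1, Int.ofNat 1, Int.ofNat 0, 1⟩, false, 1, ⟨⟨Int.ofNat 1, 0⟩, ⟨Int.ofNat 0, 0⟩, ⟨Int.ofNat 0, 0⟩⟩⟩,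
  ⟨5, 0, ⟨Int.ofNat 1, Int.ofNat 2, Int.ofNat 0, 1⟩, false, 1, ⟨⟨Int.ofNat 1, 0⟩, ⟨Int.ofNat 1, 0⟩, ⟨Int.ofNat 0, 0⟩⟩⟩,
  ⟨6, 9, ⟨Int.ofNat 2, Int.ofNat 0, Int.ofNat 0, 1⟩, false, 1, ⟨⟨Int.negSucc 0, 0⟩, ⟨Int.negSucc 0, 0⟩, ⟨Int.ofNat 0, 0⟩⟩⟩,
  ⟨7, 9, ⟨Int.ofNat 2, Int.ofNat 1, Int.ofNat 0, 1⟩, false, 1, ⟨⟨Int.negSucc 0, 0⟩, ⟨Int.ofNat 0, 0⟩, ⟨Int.ofNat 0, 0⟩⟩⟩,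
  ⟨19, 0, ⟨Int.ofNat 0, Int.ofNat 1, Int.ofNat 1, 1⟩, false, 1, ⟨⟨Int.ofNat 0, 0⟩, ⟨Int.ofNat 0, 0⟩, ⟨Int.ofNat 1, 0⟩⟩⟩,
  ⟨20, 0, ⟨Int.ofNat 0, Int.ofNat 2, Int.ofNat 1, 1⟩, false, 1, ⟨⟨Int.ofNat 0, 0⟩, ⟨Int.ofNat 1, 0⟩, ⟨Int.ofNat 1, 0⟩⟩⟩,
  ⟨22, 0, ⟨Int.ofNat 1, Int.ofNat 1, Int.ofNat 1, 1⟩, false, 1, ⟨⟨Int.ofNat 1, 0⟩, ⟨Int.ofNat 0, 0⟩, ⟨Int.ofNat 1, 0⟩⟩⟩,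
  ⟨23, 0, ⟨Int.ofNat 1, Int.ofNat 2, Int.ofNat 1, 1⟩, false, 1, ⟨⟨Int.ofNat 1, 0⟩, ⟨Int.ofNat 1, 0⟩, ⟨Int.ofNat 1, 0⟩⟩⟩,
  ⟨24, 9, ⟨Int.ofNat 2, Int.ofNat 0, Int.ofNat 1, 1⟩, false, 1, ⟨⟨Int.negSucc 0, 0⟩, ⟨Int.negSucc 0, 0⟩, ⟨Int.ofNat 1, 0⟩⟩⟩,
  ⟨25, 9, ⟨Int.ofNat 2, Int.ofNat 1, Int.ofNat 1, 1⟩, false, 1, ⟨⟨Int.negSucc 0, 0⟩, ⟨Int.ofNat 0, 0⟩, ⟨Int.ofNat 1, 0⟩⟩⟩,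
  ⟨28, 0, ⟨Int.ofNat 0, Int.ofNat 1, Int.ofNat 1, 1⟩, true, 1, ⟨⟨Int.ofNat 0, 0⟩, ⟨Int.ofNat 0, 0⟩, ⟨Int.negSucc 0, 0⟩⟩⟩,
  ⟨29, 0, ⟨Int.ofNat 0, Int.ofNat 2, Int.ofNat 1, 1⟩, true, 1, ⟨⟨Int.ofNat 0, 0⟩, ⟨Int.ofNat 1, 0⟩, ⟨Int.negSucc 0, 0⟩⟩⟩,
  ⟨31, 0, ⟨Int.ofNat 1, Int.ofNat 1, Int.ofNat 1, 1⟩, true, 1, ⟨⟨Int.ofNat 1, 0⟩, ⟨Int.ofNat 0, 0⟩, ⟨Int.negSucc 0, 0⟩⟩⟩,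
  ⟨32, 0, ⟨Int.ofNat 1, Int.ofNat 2, Int.ofNat 1, 1⟩, true, 1, ⟨⟨Int.ofNat 1, 0⟩, ⟨Int.ofNat 1, 0⟩, ⟨Int.negSucc 0, 0⟩⟩⟩,
  ⟨33, 9, ⟨Int.ofNat 2, Int.ofNat 0, Int.ofNat 1, 1⟩, true, 1, ⟨⟨Int.negSucc 0, 0⟩, ⟨Int.negSucc 0, 0⟩, ⟨Int.negSucc 0, 0⟩⟩⟩,
  ⟨34, 9, ⟨Int.ofNat 2, Int.ofNat 1, Int.ofNat 1, 1⟩, true, 1, ⟨⟨Int.negSucc 0, 0⟩, ⟨Int.ofNat 0, 0⟩, ⟨Int.negSucc 0, 0⟩⟩⟩], (Int.negSucc 11, Int.negSucc 2, Int.ofNat 4)⟩,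
⟨⟨Int.ofNat 0, Int.ofNat 2, Int.ofNat 0, 1⟩, [⟨0, 3, ⟨Int.ofNat 0, Int.ofNat 0, Int.ofNat 0, 1⟩, false, 1, ⟨⟨Int.ofNat 0, 0⟩, ⟨Int.ofNat 1, 0⟩, ⟨Int.ofNat 0, 0⟩⟩⟩,
  ⟨1, 0, ⟨Int.ofNat 0, Int.ofNat 1, Int.ofNat 0, 1⟩, false, 1, ⟨⟨Int.ofNat 0, 0⟩, ⟨Int.negSucc 0, 0⟩, ⟨Int.ofNat 0, 0⟩⟩⟩,
  ⟨3, 3, ⟨Int.ofNat 1, Int.ofNat 0, Int.ofNat 0, 1⟩, false, 1, ⟨⟨Int.ofNat 1, 0⟩, ⟨Int.ofNat 1, 0⟩, ⟨Int.ofNat 0, 0⟩⟩⟩,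
  ⟨5, 0, ⟨Int.ofNat 1, Int.ofNat 2, Int.ofNat 0, 1⟩, false, 1, ⟨⟨Int.ofNat 1, 0⟩, ⟨Int.ofNat 0, 0⟩, ⟨Int.ofNat 0, 0⟩⟩⟩,
  ⟨7, 9, ⟨Int.ofNat 2, Int.ofNat 1, Int.ofNat 0, 1⟩, false, 1, ⟨⟨Int.negSucc 0, 0⟩, ⟨Int.negSucc 0, 0⟩, ⟨Int.ofNat 0, 0⟩⟩⟩,
  ⟨8, 9, ⟨Int.ofNat 2, Int.ofNat 2, Int.ofNat 0, 1⟩, false, 1, ⟨⟨Int.negSucc 0, 0⟩, ⟨Int.ofNat 0, 0⟩, ⟨Int.ofNat 0, 0⟩⟩⟩,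
  ⟨20, 0, ⟨Int.ofNat 0, Int.ofNat 2, Int.ofNat 1, 1⟩, false, 1, ⟨⟨Int.ofNat 0, 0⟩, ⟨Int.ofNat 0, 0⟩, ⟨Int.ofNat 1, 0⟩⟩⟩,
  ⟨21, 3, ⟨Int.ofNat 1, Int.ofNat 0, Int.ofNat 1, 1⟩, false, 1, ⟨⟨Int.ofNat 1, 0⟩, ⟨Int.ofNat 1, 0⟩, ⟨Int.ofNat 1, 0⟩⟩⟩,
  ⟨23, 0, ⟨Int.ofNat 1, Int.ofNat 2, Int.ofNat 1, 1⟩, false, 1, ⟨⟨Int.ofNat 1, 0⟩, ⟨Int.ofNat 0, 0⟩, ⟨Int.ofNat 1, 0⟩⟩⟩,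
  ⟨25, 9, ⟨Int.ofNat 2, Int.ofNat 1, Int.ofNat 1, 1⟩, false, 1, ⟨⟨Int.negSucc 0, 0⟩, ⟨Int.negSucc 0, 0⟩, ⟨Int.ofNat 1, 0⟩⟩⟩,
  ⟨26, 9, ⟨Int.ofNat 2, Int.ofNat 2, Int.ofNat 1, 1⟩, false, 1, ⟨⟨Int.negSucc 0, 0⟩, ⟨Int.ofNat 0, 0⟩, ⟨Int.ofNat 1, 0⟩⟩⟩,
  ⟨29, 0, ⟨Int.ofNat 0, Int.ofNat 2, Int.ofNat 1, 1⟩, true, 1, ⟨⟨Int.ofNat 0, 0⟩, ⟨Int.ofNat 0, 0⟩, ⟨Int.negSucc 0, 0⟩⟩⟩,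
  ⟨30, 3, ⟨Int.ofNat 1, Int.ofNat 0, Int.ofNat 1, 1⟩, true, 1, ⟨⟨Int.ofNat 1, 0⟩, ⟨Int.ofNat 1, 0⟩, ⟨Int.negSucc 0, 0⟩⟩⟩,
  ⟨32, 0, ⟨Int.ofNat 1, Int.ofNat 2, Int.ofNat 1, 1⟩, true, 1, ⟨⟨Int.ofNat 1, 0⟩, ⟨Int.ofNat 0, 0⟩, ⟨Int.negSucc 0, 0⟩⟩⟩,
  ⟨34, 9, ⟨Int.ofNat 2, Int.ofNat 1, Int.ofNat 1, 1⟩, true, 1, ⟨⟨Int.negSucc 0, 0⟩, ⟨Int.negSucc 0, 0⟩, ⟨Int.negSucc 0, 0⟩⟩⟩,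
  ⟨35, 9, ⟨Int.ofNat 2, Int.ofNat 2, Int.ofNat 1, 1⟩, true, 1, ⟨⟨Int.negSucc 0, 0⟩, ⟨Int.ofNat 0, 0⟩, ⟨Int.negSucc 0, 0⟩⟩⟩], (Int.negSucc 8, Int.negSucc 11, Int.ofNat 4)⟩,
⟨⟨Int.ofNat 1, Int.ofNat 0, Int.ofNat 0, 1⟩, [⟨0, 0, ⟨Int.ofNat 0, Int.ofNat 0, Int.ofNat 0, 1⟩, false, 1, ⟨⟨Int.negSucc 0, 0⟩, ⟨Int.ofNat 0, 0⟩, ⟨Int.ofNat 0, 0⟩⟩⟩,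
  ⟨2, 4, ⟨Int.ofNat 0, Int.ofNat 2, Int.ofNat 0, 1⟩, false, 1, ⟨⟨Int.negSucc 0, 0⟩, ⟨Int.negSucc 0, 0⟩, ⟨Int.ofNat 0, 0⟩⟩⟩,
  ⟨4, 0, ⟨Int.ofNat 1, Int.ofNat 1, Int.ofNat 0, 1⟩, false, 1, ⟨⟨Int.ofNat 0, 0⟩, ⟨Int.ofNat 1, 0⟩, ⟨Int.ofNat 0, 0⟩⟩⟩,
  ⟨5, 4, ⟨Int.ofNat 1, Int.ofNat 2, Int.ofNat 0, 1⟩, false, 1, ⟨⟨Int.ofNat 0, 0⟩, ⟨Int.negSucc 0, 0⟩, ⟨Int.ofNat 0, 0⟩⟩⟩,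
  ⟨6, 0, ⟨Int.ofNat 2, Int.ofNat 0, Int.ofNat 0, 1⟩, false, 1, ⟨⟨Int.ofNat 1, 0⟩, ⟨Int.ofNat 0, 0⟩, ⟨Int.ofNat 0, 0⟩⟩⟩,
  ⟨7, 0, ⟨Int.ofNat 2, Int.ofNat 1, Int.ofNat 0, 1⟩, false, 1, ⟨⟨Int.ofNat 1, 0⟩, ⟨Int.ofNat 1, 0⟩, ⟨Int.ofNat 0, 0⟩⟩⟩,
  ⟨21, 0, ⟨Int.ofNat 1, Int.ofNat 0, Int.ofNat 1, 1⟩, false, 1, ⟨⟨Int.ofNat 0, 0⟩, ⟨Int.ofNat 0, 0⟩, ⟨Int.ofNat 1, 0⟩⟩⟩,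
  ⟨22, 0, ⟨Int.ofNat 1, Int.ofNat 1, Int.ofNat 1, 1⟩, false, 1, ⟨⟨Int.ofNat 0, 0⟩, ⟨Int.ofNat 1, 0⟩, ⟨Int.ofNat 1, 0⟩⟩⟩,
  ⟨23, 4, ⟨Int.ofNat 1, Int.ofNat 2, Int.ofNat 1, 1⟩, false, 1, ⟨⟨Int.ofNat 0, 0⟩, ⟨Int.negSucc 0, 0⟩, ⟨Int.ofNat 1, 0⟩⟩⟩,
  ⟨24, 0, ⟨Int.ofNat 2, Int.ofNat 0, Int.ofNat 1, 1⟩, false, 1, ⟨⟨Int.ofNat 1, 0⟩, ⟨Int.ofNat 0, 0⟩, ⟨Int.ofNat 1, 0⟩⟩⟩,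
  ⟨25, 0, ⟨Int.ofNat 2, Int.ofNat 1, Int.ofNat 1, 1⟩, false, 1, ⟨⟨Int.ofNat 1, 0⟩, ⟨Int.ofNat 1, 0⟩, ⟨Int.ofNat 1, 0⟩⟩⟩,
  ⟨30, 0, ⟨Int.ofNat 1, Int.ofNat 0, Int.ofNat 1, 1⟩, true, 1, ⟨⟨Int.ofNat 0, 0⟩, ⟨Int.ofNat 0, 0⟩, ⟨Int.negSucc 0, 0⟩⟩⟩,
  ⟨31, 0, ⟨Int.ofNat 1, Int.ofNat 1, Int.ofNat 1, 1⟩, true, 1, ⟨⟨Int.ofNat 0, 0⟩, ⟨Int.ofNat 1, 0⟩, ⟨Int.negSucc 0, 0⟩⟩⟩,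
  ⟨32, 4, ⟨Int.ofNat 1, Int.ofNat 2, Int.ofNat 1, 1⟩, true, 1, ⟨⟨Int.ofNat 0, 0⟩, ⟨Int.negSucc 0, 0⟩, ⟨Int.negSucc 0, 0⟩⟩⟩,
  ⟨33, 0, ⟨Int.ofNat 2, Int.ofNat 0, Int.ofNat 1, 1⟩, true, 1, ⟨⟨Int.ofNat 1, 0⟩, ⟨Int.ofNat 0, 0⟩, ⟨Int.negSucc 0, 0⟩⟩⟩,
  ⟨34, 0, ⟨Int.ofNat 2, Int.ofNat 1, Int.ofNat 1, 1⟩, true, 1, ⟨⟨Int.ofNat 1, 0⟩, ⟨Int.ofNat 1, 0⟩, ⟨Int.negSucc 0, 0⟩⟩⟩], (Int.negSucc 2, Int.ofNat 9, Int.ofNat 4)⟩,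
⟨⟨Int.ofNat 1, Int.ofNat 1, Int.ofNat 0, 1⟩, [⟨0, 0, ⟨Int.ofNat 0, Int.ofNat 0, Int.ofNat 0, 1⟩, false, 1, ⟨⟨Int.negSucc 0, 0⟩, ⟨Int.negSucc 0, 0⟩, ⟨Int.ofNat 0, 0⟩⟩⟩,
  ⟨1, 0, ⟨Int.ofNat 0, Int.ofNat 1, Int.ofNat 0, 1⟩, false, 1, ⟨⟨Int.negSucc 0, 0⟩, ⟨Int.ofNat 0, 0⟩, ⟨Int.ofNat 0, 0⟩⟩⟩,
  ⟨3, 0, ⟨Int.ofNat 1, Int.ofNat 0, Int.ofNat 0, 1⟩, false, 1, ⟨⟨Int.ofNat 0, 0⟩, ⟨Int.negSucc 0, 0⟩, ⟨Int.ofNat 0, 0⟩⟩⟩,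
  ⟨5, 0, ⟨Int.ofNat 1, Int.ofNat 2, Int.ofNat 0, 1⟩, false, 1, ⟨⟨Int.ofNat 0, 0⟩, ⟨Int.ofNat 1, 0⟩, ⟨Int.ofNat 0, 0⟩⟩⟩,
  ⟨7, 0, ⟨Int.ofNat 2, Int.ofNat 1, Int.ofNat 0, 1⟩, false, 1, ⟨⟨Int.ofNat 1, 0⟩, ⟨Int.ofNat 0, 0⟩, ⟨Int.ofNat 0, 0⟩⟩⟩,
  ⟨8, 0, ⟨Int.ofNat 2, Int.ofNat 2, Int.ofNat 0, 1⟩, false, 1, ⟨⟨Int.ofNat 1, 0⟩, ⟨Int.ofNat 1, 0⟩, ⟨Int.ofNat 0, 0⟩⟩⟩,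
  ⟨22, 0, ⟨Int.ofNat 1, Int.ofNat 1, Int.ofNat 1, 1⟩, false, 1, ⟨⟨Int.ofNat 0, 0⟩, ⟨Int.ofNat 0, 0⟩, ⟨Int.ofNat 1, 0⟩⟩⟩,
  ⟨23, 0, ⟨Int.ofNat 1, Int.ofNat 2, Int.ofNat 1, 1⟩, false, 1, ⟨⟨Int.ofNat 0, 0⟩, ⟨Int.ofNat 1, 0⟩, ⟨Int.ofNat 1, 0⟩⟩⟩,
  ⟨25, 0, ⟨Int.ofNat 2, Int.ofNat 1, Int.ofNat 1, 1⟩, false, 1, ⟨⟨Int.ofNat 1, 0⟩, ⟨Int.ofNat 0, 0⟩, ⟨Int.ofNat 1, 0⟩⟩⟩,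
  ⟨26, 0, ⟨Int.ofNat 2, Int.ofNat 2, Int.ofNat 1, 1⟩, false, 1, ⟨⟨Int.ofNat 1, 0⟩, ⟨Int.ofNat 1, 0⟩, ⟨Int.ofNat 1, 0⟩⟩⟩,
  ⟨31, 0, ⟨Int.ofNat 1, Int.ofNat 1, Int.ofNat 1, 1⟩, true, 1, ⟨⟨Int.ofNat 0, 0⟩, ⟨Int.ofNat 0, 0⟩, ⟨Int.negSucc 0, 0⟩⟩⟩,
  ⟨32, 0, ⟨Int.ofNat 1, Int.ofNat 2, Int.ofNat 1, 1⟩, true, 1, ⟨⟨Int.ofNat 0, 0⟩, ⟨Int.ofNat 1, 0⟩, ⟨Int.negSucc 0, 0⟩⟩⟩,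
  ⟨34, 0, ⟨Int.ofNat 2, Int.ofNat 1, Int.ofNat 1, 1⟩, true, 1, ⟨⟨Int.ofNat 1, 0⟩, ⟨Int.ofNat 0, 0⟩, ⟨Int.negSucc 0, 0⟩⟩⟩,
  ⟨35, 0, ⟨Int.ofNat 2, Int.ofNat 2, Int.ofNat 1, 1⟩, true, 1, ⟨⟨Int.ofNat 1, 0⟩, ⟨Int.ofNat 1, 0⟩, ⟨Int.negSucc 0, 0⟩⟩⟩], (Int.negSucc 3, Int.negSucc 8, Int.ofNat 3)⟩,
⟨⟨Int.ofNat 1, Int.ofNat 2, Int.ofNat 0, 1⟩, [⟨1, 0, ⟨Int.ofNat 0, Int.ofNat 1, Int.ofNat 0, 1⟩, false, 1, ⟨⟨Int.negSucc 0, 0⟩, ⟨Int.negSucc 0, 0⟩, ⟨Int.ofNat 0, 0⟩⟩⟩,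
  ⟨2, 0, ⟨Int.ofNat 0, Int.ofNat 2, Int.ofNat 0, 1⟩, false, 1, ⟨⟨Int.negSucc 0, 0⟩, ⟨Int.ofNat 0, 0⟩, ⟨Int.ofNat 0, 0⟩⟩⟩,
  ⟨3, 3, ⟨Int.ofNat 1, Int.ofNat 0, Int.ofNat 0, 1⟩, false, 1, ⟨⟨Int.ofNat 0, 0⟩, ⟨Int.ofNat 1, 0⟩, ⟨Int.ofNat 0, 0⟩⟩⟩,
  ⟨4, 0, ⟨Int.ofNat 1, Int.ofNat 1, Int.ofNat 0, 1⟩, false, 1, ⟨⟨Int.ofNat 0, 0⟩, ⟨Int.negSucc 0, 0⟩, ⟨Int.ofNat 0, 0⟩⟩⟩,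
  ⟨6, 3, ⟨Int.ofNat 2, Int.ofNat 0, Int.ofNat 0, 1⟩, false, 1, ⟨⟨Int.ofNat 1, 0⟩, ⟨Int.ofNat 1, 0⟩, ⟨Int.ofNat 0, 0⟩⟩⟩,
  ⟨8, 0, ⟨Int.ofNat 2, Int.ofNat 2, Int.ofNat 0, 1⟩, false, 1, ⟨⟨Int.ofNat 1, 0⟩, ⟨Int.ofNat 0, 0⟩, ⟨Int.ofNat 0, 0⟩⟩⟩,
  ⟨23, 0, ⟨Int.ofNat 1, Int.ofNat 2, Int.ofNat 1, 1⟩, false, 1, ⟨⟨Int.ofNat 0, 0⟩, ⟨Int.ofNat 0, 0⟩, ⟨Int.ofNat 1, 0⟩⟩⟩,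
  ⟨24, 3, ⟨Int.ofNat 2, Int.ofNat 0, Int.ofNat 1, 1⟩, false, 1, ⟨⟨Int.ofNat 1, 0⟩, ⟨Int.ofNat 1, 0⟩, ⟨Int.ofNat 1, 0⟩⟩⟩,
  ⟨26, 0, ⟨Int.ofNat 2, Int.ofNat 2, Int.ofNat 1, 1⟩, false, 1, ⟨⟨Int.ofNat 1, 0⟩, ⟨Int.ofNat 0, 0⟩, ⟨Int.ofNat 1, 0⟩⟩⟩,
  ⟨32, 0, ⟨Int.ofNat 1, Int.ofNat 2, Int.ofNat 1, 1⟩, true, 1, ⟨⟨Int.ofNat 0, 0⟩, ⟨Int.ofNat 0, 0⟩, ⟨Int.negSucc 0, 0⟩⟩⟩,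
  ⟨33, 3, ⟨Int.ofNat 2, Int.ofNat 0, Int.ofNat 1, 1⟩, true, 1, ⟨⟨Int.ofNat 1, 0⟩, ⟨Int.ofNat 1, 0⟩, ⟨Int.negSucc 0, 0⟩⟩⟩,
  ⟨35, 0, ⟨Int.ofNat 2, Int.ofNat 2, Int.ofNat 1, 1⟩, true, 1, ⟨⟨Int.ofNat 1, 0⟩, ⟨Int.ofNat 0, 0⟩, ⟨Int.negSucc 0, 0⟩⟩⟩], (Int.ofNat 12, Int.ofNat 3, Int.ofNat 4)⟩,
⟨⟨Int.ofNat 2, Int.ofNat 0, Int.ofNat 0, 1⟩, [⟨0, 10, ⟨Int.ofNat 0, Int.ofNat 0, Int.ofNat 0, 1⟩, false, 1, ⟨⟨Int.ofNat 1, 0⟩, ⟨Int.ofNat 0, 0⟩, ⟨Int.ofNat 0, 0⟩⟩⟩,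
  ⟨1, 10, ⟨Int.ofNat 0, Int.ofNat 1, Int.ofNat 0, 1⟩, false, 1, ⟨⟨Int.ofNat 1, 0⟩, ⟨Int.ofNat 1, 0⟩, ⟨Int.ofNat 0, 0⟩⟩⟩,
  ⟨3, 0, ⟨Int.ofNat 1, Int.ofNat 0, Int.ofNat 0, 1⟩, false, 1, ⟨⟨Int.negSucc 0, 0⟩, ⟨Int.ofNat 0, 0⟩, ⟨Int.ofNat 0, 0⟩⟩⟩,
  ⟨5, 4, ⟨Int.ofNat 1, Int.ofNat 2, Int.ofNat 0, 1⟩, false, 1, ⟨⟨Int.negSucc 0, 0⟩, ⟨Int.negSucc 0, 0⟩, ⟨Int.ofNat 0, 0⟩⟩⟩,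
  ⟨7, 0, ⟨Int.ofNat 2, Int.ofNat 1, Int.ofNat 0, 1⟩, false, 1, ⟨⟨Int.ofNat 0, 0⟩, ⟨Int.ofNat 1, 0⟩, ⟨Int.ofNat 0, 0⟩⟩⟩,
  ⟨8, 4, ⟨Int.ofNat 2, Int.ofNat 2, Int.ofNat 0, 1⟩, false, 1, ⟨⟨Int.ofNat 0, 0⟩, ⟨Int.negSucc 0, 0⟩, ⟨Int.ofNat 0, 0⟩⟩⟩,
  ⟨24, 0, ⟨Int.ofNat 2, Int.ofNat 0, Int.ofNat 1, 1⟩, false, 1, ⟨⟨Int.ofNat 0, 0⟩, ⟨Int.ofNat 0, 0⟩, ⟨Int.ofNat 1, 0⟩⟩⟩,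
  ⟨25, 0, ⟨Int.ofNat 2, Int.ofNat 1, Int.ofNat 1, 1⟩, false, 1, ⟨⟨Int.ofNat 0, 0⟩, ⟨Int.ofNat 1, 0⟩, ⟨Int.ofNat 1, 0⟩⟩⟩,
  ⟨26, 4, ⟨Int.ofNat 2, Int.ofNat 2, Int.ofNat 1, 1⟩, false, 1, ⟨⟨Int.ofNat 0, 0⟩, ⟨Int.negSucc 0, 0⟩, ⟨Int.ofNat 1, 0⟩⟩⟩,
  ⟨33, 0, ⟨Int.ofNat 2, Int.ofNat 0, Int.ofNat 1, 1⟩, true, 1, ⟨⟨Int.ofNat 0, 0⟩, ⟨Int.ofNat 0, 0⟩, ⟨Int.negSucc 0, 0⟩⟩⟩,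
  ⟨34, 0, ⟨Int.ofNat 2, Int.ofNat 1, Int.ofNat 1, 1⟩, true, 1, ⟨⟨Int.ofNat 0, 0⟩, ⟨Int.ofNat 1, 0⟩, ⟨Int.negSucc 0, 0⟩⟩⟩,
  ⟨35, 4, ⟨Int.ofNat 2, Int.ofNat 2, Int.ofNat 1, 1⟩, true, 1, ⟨⟨Int.ofNat 0, 0⟩, ⟨Int.negSucc 0, 0⟩, ⟨Int.negSucc 0, 0⟩⟩⟩], (Int.negSucc 2, Int.ofNat 9, Int.ofNat 4)⟩,
⟨⟨Int.ofNat 2, Int.ofNat 1, Int.ofNat 0, 1⟩, [⟨1, 10, ⟨Int.ofNat 0, Int.ofNat 1, Int.ofNat 0, 1⟩, false, 1, ⟨⟨Int.ofNat 1, 0⟩, ⟨Int.ofNat 0, 0⟩, ⟨Int.ofNat 0, 0⟩⟩⟩,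
  ⟨2, 10, ⟨Int.ofNat 0, Int.ofNat 2, Int.ofNat 0, 1⟩, false, 1, ⟨⟨Int.ofNat 1, 0⟩, ⟨Int.ofNat 1, 0⟩, ⟨Int.ofNat 0, 0⟩⟩⟩,
  ⟨3, 0, ⟨Int.ofNat 1, Int.ofNat 0, Int.ofNat 0, 1⟩, false, 1, ⟨⟨Int.negSucc 0, 0⟩, ⟨Int.negSucc 0, 0⟩, ⟨Int.ofNat 0, 0⟩⟩⟩,
  ⟨4, 0, ⟨Int.ofNat 1, Int.ofNat 1, Int.ofNat 0, 1⟩, false, 1, ⟨⟨Int.negSucc 0, 0⟩, ⟨Int.ofNat 0, 0⟩, ⟨Int.ofNat 0, 0⟩⟩⟩,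
  ⟨6, 0, ⟨Int.ofNat 2, Int.ofNat 0, Int.ofNat 0, 1⟩, false, 1, ⟨⟨Int.ofNat 0, 0⟩, ⟨Int.negSucc 0, 0⟩, ⟨Int.ofNat 0, 0⟩⟩⟩,
  ⟨8, 0, ⟨Int.ofNat 2, Int.ofNat 2, Int.ofNat 0, 1⟩, false, 1, ⟨⟨Int.ofNat 0, 0⟩, ⟨Int.ofNat 1, 0⟩, ⟨Int.ofNat 0, 0⟩⟩⟩,
  ⟨25, 0, ⟨Int.ofNat 2, Int.ofNat 1, Int.ofNat 1, 1⟩, false, 1, ⟨⟨Int.ofNat 0, 0⟩, ⟨Int.ofNat 0, 0⟩, ⟨Int.ofNat 1, 0⟩⟩⟩,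
  ⟨26, 0, ⟨Int.ofNat 2, Int.ofNat 2, Int.ofNat 1, 1⟩, false, 1, ⟨⟨Int.ofNat 0, 0⟩, ⟨Int.ofNat 1, 0⟩, ⟨Int.ofNat 1, 0⟩⟩⟩,
  ⟨34, 0, ⟨Int.ofNat 2, Int.ofNat 1, Int.ofNat 1, 1⟩, true, 1, ⟨⟨Int.ofNat 0, 0⟩, ⟨Int.ofNat 0, 0⟩, ⟨Int.negSucc 0, 0⟩⟩⟩,
  ⟨35, 0, ⟨Int.ofNat 2, Int.ofNat 2, Int.ofNat 1, 1⟩, true, 1, ⟨⟨Int.ofNat 0, 0⟩, ⟨Int.ofNat 1, 0⟩, ⟨Int.negSucc 0, 0⟩⟩⟩], (Int.negSucc 8, Int.negSucc 4, Int.ofNat 3)⟩,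
⟨⟨Int.ofNat 2, Int.ofNat 2, Int.ofNat 0, 1⟩, [⟨0, 14, ⟨Int.ofNat 0, Int.ofNat 0, Int.ofNat 0, 1⟩, false, 1, ⟨⟨Int.ofNat 1, 0⟩, ⟨Int.ofNat 1, 0⟩, ⟨Int.ofNat 0, 0⟩⟩⟩,
  ⟨2, 10, ⟨Int.ofNat 0, Int.ofNat 2, Int.ofNat 0, 1⟩, false, 1, ⟨⟨Int.ofNat 1, 0⟩, ⟨Int.ofNat 0, 0⟩, ⟨Int.ofNat 0, 0⟩⟩⟩,
  ⟨4, 0, ⟨Int.ofNat 1, Int.ofNat 1, Int.ofNat 0, 1⟩, false, 1, ⟨⟨Int.negSucc 0, 0⟩, ⟨Int.negSucc 0, 0⟩, ⟨Int.ofNat 0, 0⟩⟩⟩,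
  ⟨5, 0, ⟨Int.ofNat 1, Int.ofNat 2, Int.ofNat 0, 1⟩, false, 1, ⟨⟨Int.negSucc 0, 0⟩, ⟨Int.ofNat 0, 0⟩, ⟨Int.ofNat 0, 0⟩⟩⟩,
  ⟨6, 3, ⟨Int.ofNat 2, Int.ofNat 0, Int.ofNat 0, 1⟩, false, 1, ⟨⟨Int.ofNat 0, 0⟩, ⟨Int.ofNat 1, 0⟩, ⟨Int.ofNat 0, 0⟩⟩⟩,
  ⟨7, 0, ⟨Int.ofNat 2, Int.ofNat 1, Int.ofNat 0, 1⟩, false, 1, ⟨⟨Int.ofNat 0, 0⟩, ⟨Int.negSucc 0, 0⟩, ⟨Int.ofNat 0, 0⟩⟩⟩,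
  ⟨26, 0, ⟨Int.ofNat 2, Int.ofNat 2, Int.ofNat 1, 1⟩, false, 1, ⟨⟨Int.ofNat 0, 0⟩, ⟨Int.ofNat 0, 0⟩, ⟨Int.ofNat 1, 0⟩⟩⟩,
  ⟨35, 0, ⟨Int.ofNat 2, Int.ofNat 2, Int.ofNat 1, 1⟩, true, 1, ⟨⟨Int.ofNat 0, 0⟩, ⟨Int.ofNat 0, 0⟩, ⟨Int.negSucc 0, 0⟩⟩⟩], (Int.negSucc 3, Int.negSucc 8, Int.ofNat 3)⟩,
⟨⟨Int.ofNat 0, Int.ofNat 0, Int.ofNat 0, 1⟩, [⟨10, 0, ⟨Int.ofNat 0, Int.ofNat 1, Int.ofNat 0, 1⟩, false, 1, ⟨⟨Int.ofNat 0, 0⟩, ⟨Int.ofNat 1, 0⟩, ⟨Int.ofNat 0, 0⟩⟩⟩,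
  ⟨11, 4, ⟨Int.ofNat 0, Int.ofNat 2, Int.ofNat 0, 1⟩, false, 1, ⟨⟨Int.ofNat 0, 0⟩, ⟨Int.negSucc 0, 0⟩, ⟨Int.ofNat 0, 0⟩⟩⟩,
  ⟨12, 0, ⟨Int.ofNat 1, Int.ofNat 0, Int.ofNat 0, 1⟩, false, 1, ⟨⟨Int.ofNat 1, 0⟩, ⟨Int.ofNat 0, 0⟩, ⟨Int.ofNat 0, 0⟩⟩⟩,
  ⟨13, 0, ⟨Int.ofNat 1, Int.ofNat 1, Int.ofNat 0, 1⟩, false, 1, ⟨⟨Int.ofNat 1, 0⟩, ⟨Int.ofNat 1, 0⟩, ⟨Int.ofNat 0, 0⟩⟩⟩,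
  ⟨15, 9, ⟨Int.ofNat 2, Int.ofNat 0, Int.ofNat 0, 1⟩, false, 1, ⟨⟨Int.negSucc 0, 0⟩, ⟨Int.ofNat 0, 0⟩, ⟨Int.ofNat 0, 0⟩⟩⟩,
  ⟨17, 13, ⟨Int.ofNat 2, Int.ofNat 2, Int.ofNat 0, 1⟩, false, 1, ⟨⟨Int.negSucc 0, 0⟩, ⟨Int.negSucc 0, 0⟩, ⟨Int.ofNat 0, 0⟩⟩⟩,
  ⟨18, 1, ⟨Int.ofNat 0, Int.ofNat 0, Int.ofNat 1, 1⟩, false, 1, ⟨⟨Int.ofNat 0, 0⟩, ⟨Int.ofNat 0, 0⟩, ⟨Int.negSucc 0, 0⟩⟩⟩,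
  ⟨27, 1, ⟨Int.ofNat 0, Int.ofNat 0, Int.ofNat 1, 1⟩, true, 1, ⟨⟨Int.ofNat 0, 0⟩, ⟨Int.ofNat 0, 0⟩, ⟨Int.ofNat 1, 0⟩⟩⟩], (Int.negSucc 7, Int.negSucc 4, Int.negSucc 3)⟩,
⟨⟨Int.ofNat 0, Int.ofNat 1, Int.ofNat 0, 1⟩, [⟨9, 0, ⟨Int.ofNat 0, Int.ofNat 0, Int.ofNat 0, 1⟩, false, 1, ⟨⟨Int.ofNat 0, 0⟩, ⟨Int.negSucc 0, 0⟩, ⟨Int.ofNat 0, 0⟩⟩⟩,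
  ⟨11, 0, ⟨Int.ofNat 0, Int.ofNat 2, Int.ofNat 0, 1⟩, false, 1, ⟨⟨Int.ofNat 0, 0⟩, ⟨Int.ofNat 1, 0⟩, ⟨Int.ofNat 0, 0⟩⟩⟩,
  ⟨13, 0, ⟨Int.ofNat 1, Int.ofNat 1, Int.ofNat 0, 1⟩, false, 1, ⟨⟨Int.ofNat 1, 0⟩, ⟨Int.ofNat 0, 0⟩, ⟨Int.ofNat 0, 0⟩⟩⟩,
  ⟨14, 0, ⟨Int.ofNat 1, Int.ofNat 2, Int.ofNat 0, 1⟩, false, 1, ⟨⟨Int.ofNat 1, 0⟩, ⟨Int.ofNat 1, 0⟩, ⟨Int.ofNat 0, 0⟩⟩⟩,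
  ⟨15, 9, ⟨Int.ofNat 2, Int.ofNat 0, Int.ofNat 0, 1⟩, false, 1, ⟨⟨Int.negSucc 0, 0⟩, ⟨Int.negSucc 0, 0⟩, ⟨Int.ofNat 0, 0⟩⟩⟩,
  ⟨16, 9, ⟨Int.ofNat 2, Int.ofNat 1, Int.ofNat 0, 1⟩, false, 1, ⟨⟨Int.negSucc 0, 0⟩, ⟨Int.ofNat 0, 0⟩, ⟨Int.ofNat 0, 0⟩⟩⟩,
  ⟨18, 1, ⟨Int.ofNat 0, Int.ofNat 0, Int.ofNat 1, 1⟩, false, 1, ⟨⟨Int.ofNat 0, 0⟩, ⟨Int.negSucc 0, 0⟩, ⟨Int.negSucc 0, 0⟩⟩⟩,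
  ⟨19, 1, ⟨Int.ofNat 0, Int.ofNat 1, Int.ofNat 1, 1⟩, false, 1, ⟨⟨Int.ofNat 0, 0⟩, ⟨Int.ofNat 0, 0⟩, ⟨Int.negSucc 0, 0⟩⟩⟩,
  ⟨27, 1, ⟨Int.ofNat 0, Int.ofNat 0, Int.ofNat 1, 1⟩, true, 1, ⟨⟨Int.ofNat 0, 0⟩, ⟨Int.negSucc 0, 0⟩, ⟨Int.ofNat 1, 0⟩⟩⟩,
  ⟨28, 1, ⟨Int.ofNat 0, Int.ofNat 1, Int.ofNat 1, 1⟩, true, 1, ⟨⟨Int.ofNat 0, 0⟩, ⟨Int.ofNat 0, 0⟩, ⟨Int.ofNat 1, 0⟩⟩⟩], (Int.ofNat 3, Int.negSucc 3, Int.negSucc 8)⟩,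
⟨⟨Int.ofNat 0, Int.ofNat 2, Int.ofNat 0, 1⟩, [⟨9, 3, ⟨Int.ofNat 0, Int.ofNat 0, Int.ofNat 0, 1⟩, false, 1, ⟨⟨Int.ofNat 0, 0⟩, ⟨Int.ofNat 1, 0⟩, ⟨Int.ofNat 0, 0⟩⟩⟩,
  ⟨10, 0, ⟨Int.ofNat 0, Int.ofNat 1, Int.ofNat 0, 1⟩, false, 1, ⟨⟨Int.ofNat 0, 0⟩, ⟨Int.negSucc 0, 0⟩, ⟨Int.ofNat 0, 0⟩⟩⟩,
  ⟨12, 3, ⟨Int.ofNat 1, Int.ofNat 0, Int.ofNat 0, 1⟩, false, 1, ⟨⟨Int.ofNat 1, 0⟩, ⟨Int.ofNat 1, 0⟩, ⟨Int.ofNat 0, 0⟩⟩⟩,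
  ⟨14, 0, ⟨Int.ofNat 1, Int.ofNat 2, Int.ofNat 0, 1⟩, false, 1, ⟨⟨Int.ofNat 1, 0⟩, ⟨Int.ofNat 0, 0⟩, ⟨Int.ofNat 0, 0⟩⟩⟩,
  ⟨16, 9, ⟨Int.ofNat 2, Int.ofNat 1, Int.ofNat 0, 1⟩, false, 1, ⟨⟨Int.negSucc 0, 0⟩, ⟨Int.negSucc 0, 0⟩, ⟨Int.ofNat 0, 0⟩⟩⟩,
  ⟨17, 9, ⟨Int.ofNat 2, Int.ofNat 2, Int.ofNat 0, 1⟩, false, 1, ⟨⟨Int.negSucc 0, 0⟩, ⟨Int.ofNat 0, 0⟩, ⟨Int.ofNat 0, 0⟩⟩⟩,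
  ⟨18, 5, ⟨Int.ofNat 0, Int.ofNat 0, Int.ofNat 1, 1⟩, false, 1, ⟨⟨Int.ofNat 0, 0⟩, ⟨Int.ofNat 1, 0⟩, ⟨Int.negSucc 0, 0⟩⟩⟩,
  ⟨19, 1, ⟨Int.ofNat 0, Int.ofNat 1, Int.ofNat 1, 1⟩, false, 1, ⟨⟨Int.ofNat 0, 0⟩, ⟨Int.negSucc 0, 0⟩, ⟨Int.negSucc 0, 0⟩⟩⟩,
  ⟨20, 1, ⟨Int.ofNat 0, Int.ofNat 2, Int.ofNat 1, 1⟩, false, 1, ⟨⟨Int.ofNat 0, 0⟩, ⟨Int.ofNat 0, 0⟩, ⟨Int.negSucc 0, 0⟩⟩⟩,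
  ⟨27, 5, ⟨Int.ofNat 0, Int.ofNat 0, Int.ofNat 1, 1⟩, true, 1, ⟨⟨Int.ofNat 0, 0⟩, ⟨Int.ofNat 1, 0⟩, ⟨Int.ofNat 1, 0⟩⟩⟩,
  ⟨28, 1, ⟨Int.ofNat 0, Int.ofNat 1, Int.ofNat 1, 1⟩, true, 1, ⟨⟨Int.ofNat 0, 0⟩, ⟨Int.negSucc 0, 0⟩, ⟨Int.ofNat 1, 0⟩⟩⟩,
  ⟨29, 1, ⟨Int.ofNat 0, Int.ofNat 2, Int.ofNat 1, 1⟩, true, 1, ⟨⟨Int.ofNat 0, 0⟩, ⟨Int.ofNat 0, 0⟩, ⟨Int.ofNat 1, 0⟩⟩⟩], (Int.negSucc 3, Int.negSucc 11, Int.negSucc 4)⟩]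
theorem cert_0_ok : chkVs 36 17 1 (fun i => Toy66.tbox (let1 i)) lab pos (foldN 27 18) (sideN 27) T 0 cert_0 = true := by decide +kernel
def cert_1 : List VCert := [⟨⟨Int.ofNat 1, Int.ofNat 0, Int.ofNat 0, 1⟩, [⟨9, 0, ⟨Int.ofNat 0, Int.ofNat 0, Int.ofNat 0, 1⟩, false, 1, ⟨⟨Int.negSucc 0, 0⟩, ⟨Int.ofNat 0, 0⟩, ⟨Int.ofNat 0, 0⟩⟩⟩,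
  ⟨11, 4, ⟨Int.ofNat 0, Int.ofNat 2, Int.ofNat 0, 1⟩, false, 1, ⟨⟨Int.negSucc 0, 0⟩, ⟨Int.negSucc 0, 0⟩, ⟨Int.ofNat 0, 0⟩⟩⟩,
  ⟨13, 0, ⟨Int.ofNat 1, Int.ofNat 1, Int.ofNat 0, 1⟩, false, 1, ⟨⟨Int.ofNat 0, 0⟩, ⟨Int.ofNat 1, 0⟩, ⟨Int.ofNat 0, 0⟩⟩⟩,
  ⟨14, 4, ⟨Int.ofNat 1, Int.ofNat 2, Int.ofNat 0, 1⟩, false, 1, ⟨⟨Int.ofNat 0, 0⟩, ⟨Int.negSucc 0, 0⟩, ⟨Int.ofNat 0, 0⟩⟩⟩,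
  ⟨15, 0, ⟨Int.ofNat 2, Int.ofNat 0, Int.ofNat 0, 1⟩, false, 1, ⟨⟨Int.ofNat 1, 0⟩, ⟨Int.ofNat 0, 0⟩, ⟨Int.ofNat 0, 0⟩⟩⟩,
  ⟨16, 0, ⟨Int.ofNat 2, Int.ofNat 1, Int.ofNat 0, 1⟩, false, 1, ⟨⟨Int.ofNat 1, 0⟩, ⟨Int.ofNat 1, 0⟩, ⟨Int.ofNat 0, 0⟩⟩⟩,
  ⟨18, 1, ⟨Int.ofNat 0, Int.ofNat 0, Int.ofNat 1, 1⟩, false, 1, ⟨⟨Int.negSucc 0, 0⟩, ⟨Int.ofNat 0, 0⟩, ⟨Int.negSucc 0, 0⟩⟩⟩,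
  ⟨20, 7, ⟨Int.ofNat 0, Int.ofNat 2, Int.ofNat 1, 1⟩, false, 1, ⟨⟨Int.negSucc 0, 0⟩, ⟨Int.negSucc 0, 0⟩, ⟨Int.negSucc 0, 0⟩⟩⟩,
  ⟨21, 1, ⟨Int.ofNat 1, Int.ofNat 0, Int.ofNat 1, 1⟩, false, 1, ⟨⟨Int.ofNat 0, 0⟩, ⟨Int.ofNat 0, 0⟩, ⟨Int.negSucc 0, 0⟩⟩⟩,
  ⟨27, 1, ⟨Int.ofNat 0, Int.ofNat 0, Int.ofNat 1, 1⟩, true, 1, ⟨⟨Int.negSucc 0, 0⟩, ⟨Int.ofNat 0, 0⟩, ⟨Int.ofNat 1, 0⟩⟩⟩,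
  ⟨29, 7, ⟨Int.ofNat 0, Int.ofNat 2, Int.ofNat 1, 1⟩, true, 1, ⟨⟨Int.negSucc 0, 0⟩, ⟨Int.negSucc 0, 0⟩, ⟨Int.ofNat 1, 0⟩⟩⟩,
  ⟨30, 1, ⟨Int.ofNat 1, Int.ofNat 0, Int.ofNat 1, 1⟩, true, 1, ⟨⟨Int.ofNat 0, 0⟩, ⟨Int.ofNat 0, 0⟩, ⟨Int.ofNat 1, 0⟩⟩⟩], (Int.negSucc 6, Int.negSucc 3, Int.ofNat 12)⟩,
⟨⟨Int.ofNat 1, Int.ofNat 1, Int.ofNat 0, 1⟩, [⟨9, 0, ⟨Int.ofNat 0, Int.ofNat 0, Int.ofNat 0, 1⟩, false, 1, ⟨⟨Int.negSucc 0, 0⟩, ⟨Int.negSucc 0, 0⟩, ⟨Int.ofNat 0, 0⟩⟩⟩,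
  ⟨10, 0, ⟨Int.ofNat 0, Int.ofNat 1, Int.ofNat 0, 1⟩, false, 1, ⟨⟨Int.negSucc 0, 0⟩, ⟨Int.ofNat 0, 0⟩, ⟨Int.ofNat 0, 0⟩⟩⟩,
  ⟨12, 0, ⟨Int.ofNat 1, Int.ofNat 0, Int.ofNat 0, 1⟩, false, 1, ⟨⟨Int.ofNat 0, 0⟩, ⟨Int.negSucc 0, 0⟩, ⟨Int.ofNat 0, 0⟩⟩⟩,
  ⟨14, 0, ⟨Int.ofNat 1, Int.ofNat 2, Int.ofNat 0, 1⟩, false, 1, ⟨⟨Int.ofNat 0, 0⟩, ⟨Int.ofNat 1, 0⟩, ⟨Int.ofNat 0, 0⟩⟩⟩,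
  ⟨16, 0, ⟨Int.ofNat 2, Int.ofNat 1, Int.ofNat 0, 1⟩, false, 1, ⟨⟨Int.ofNat 1, 0⟩, ⟨Int.ofNat 0, 0⟩, ⟨Int.ofNat 0, 0⟩⟩⟩,
  ⟨17, 0, ⟨Int.ofNat 2, Int.ofNat 2, Int.ofNat 0, 1⟩, false, 1, ⟨⟨Int.ofNat 1, 0⟩, ⟨Int.ofNat 1, 0⟩, ⟨Int.ofNat 0, 0⟩⟩⟩,
  ⟨18, 1, ⟨Int.ofNat 0, Int.ofNat 0, Int.ofNat 1, 1⟩, false, 1, ⟨⟨Int.negSucc 0, 0⟩, ⟨Int.negSucc 0, 0⟩, ⟨Int.negSucc 0, 0⟩⟩⟩,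
  ⟨19, 1, ⟨Int.ofNat 0, Int.ofNat 1, Int.ofNat 1, 1⟩, false, 1, ⟨⟨Int.negSucc 0, 0⟩, ⟨Int.ofNat 0, 0⟩, ⟨Int.negSucc 0, 0⟩⟩⟩,
  ⟨21, 1, ⟨Int.ofNat 1, Int.ofNat 0, Int.ofNat 1, 1⟩, false, 1, ⟨⟨Int.ofNat 0, 0⟩, ⟨Int.negSucc 0, 0⟩, ⟨Int.negSucc 0, 0⟩⟩⟩,
  ⟨22, 1, ⟨Int.ofNat 1, Int.ofNat 1, Int.ofNat 1, 1⟩, false, 1, ⟨⟨Int.ofNat 0, 0⟩, ⟨Int.ofNat 0, 0⟩, ⟨Int.negSucc 0, 0⟩⟩⟩,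
  ⟨27, 1, ⟨Int.ofNat 0, Int.ofNat 0, Int.ofNat 1, 1⟩, true, 1, ⟨⟨Int.negSucc 0, 0⟩, ⟨Int.negSucc 0, 0⟩, ⟨Int.ofNat 1, 0⟩⟩⟩,
  ⟨28, 1, ⟨Int.ofNat 0, Int.ofNat 1, Int.ofNat 1, 1⟩, true, 1, ⟨⟨Int.negSucc 0, 0⟩, ⟨Int.ofNat 0, 0⟩, ⟨Int.ofNat 1, 0⟩⟩⟩,
  ⟨30, 1, ⟨Int.ofNat 1, Int.ofNat 0, Int.ofNat 1, 1⟩, true, 1, ⟨⟨Int.ofNat 0, 0⟩, ⟨Int.negSucc 0, 0⟩, ⟨Int.ofNat 1, 0⟩⟩⟩,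
  ⟨31, 1, ⟨Int.ofNat 1, Int.ofNat 1, Int.ofNat 1, 1⟩, true, 1, ⟨⟨Int.ofNat 0, 0⟩, ⟨Int.ofNat 0, 0⟩, ⟨Int.ofNat 1, 0⟩⟩⟩], (Int.negSucc 2, Int.negSucc 6, Int.ofNat 12)⟩,
⟨⟨Int.ofNat 1, Int.ofNat 2, Int.ofNat 0, 1⟩, [⟨10, 0, ⟨Int.ofNat 0, Int.ofNat 1, Int.ofNat 0, 1⟩, false, 1, ⟨⟨Int.negSucc 0, 0⟩, ⟨Int.negSucc 0, 0⟩, ⟨Int.ofNat 0, 0⟩⟩⟩,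
  ⟨11, 0, ⟨Int.ofNat 0, Int.ofNat 2, Int.ofNat 0, 1⟩, false, 1, ⟨⟨Int.negSucc 0, 0⟩, ⟨Int.ofNat 0, 0⟩, ⟨Int.ofNat 0, 0⟩⟩⟩,
  ⟨12, 3, ⟨Int.ofNat 1, Int.ofNat 0, Int.ofNat 0, 1⟩, false, 1, ⟨⟨Int.ofNat 0, 0⟩, ⟨Int.ofNat 1, 0⟩, ⟨Int.ofNat 0, 0⟩⟩⟩,
  ⟨13, 0, ⟨Int.ofNat 1, Int.ofNat 1, Int.ofNat 0, 1⟩, false, 1, ⟨⟨Int.ofNat 0, 0⟩, ⟨Int.negSucc 0, 0⟩, ⟨Int.ofNat 0, 0⟩⟩⟩,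
  ⟨15, 3, ⟨Int.ofNat 2, Int.ofNat 0, Int.ofNat 0, 1⟩, false, 1, ⟨⟨Int.ofNat 1, 0⟩, ⟨Int.ofNat 1, 0⟩, ⟨Int.ofNat 0, 0⟩⟩⟩,
  ⟨17, 0, ⟨Int.ofNat 2, Int.ofNat 2, Int.ofNat 0, 1⟩, false, 1, ⟨⟨Int.ofNat 1, 0⟩, ⟨Int.ofNat 0, 0⟩, ⟨Int.ofNat 0, 0⟩⟩⟩,
  ⟨19, 1, ⟨Int.ofNat 0, Int.ofNat 1, Int.ofNat 1, 1⟩, false, 1, ⟨⟨Int.negSucc 0, 0⟩, ⟨Int.negSucc 0, 0⟩, ⟨Int.negSucc 0, 0⟩⟩⟩,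
  ⟨20, 1, ⟨Int.ofNat 0, Int.ofNat 2, Int.ofNat 1, 1⟩, false, 1, ⟨⟨Int.negSucc 0, 0⟩, ⟨Int.ofNat 0, 0⟩, ⟨Int.negSucc 0, 0⟩⟩⟩,
  ⟨21, 5, ⟨Int.ofNat 1, Int.ofNat 0, Int.ofNat 1, 1⟩, false, 1, ⟨⟨Int.ofNat 0, 0⟩, ⟨Int.ofNat 1, 0⟩, ⟨Int.negSucc 0, 0⟩⟩⟩,
  ⟨22, 1, ⟨Int.ofNat 1, Int.ofNat 1, Int.ofNat 1, 1⟩, false, 1, ⟨⟨Int.ofNat 0, 0⟩, ⟨Int.negSucc 0, 0⟩, ⟨Int.negSucc 0, 0⟩⟩⟩,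
  ⟨23, 1, ⟨Int.ofNat 1, Int.ofNat 2, Int.ofNat 1, 1⟩, false, 1, ⟨⟨Int.ofNat 0, 0⟩, ⟨Int.ofNat 0, 0⟩, ⟨Int.negSucc 0, 0⟩⟩⟩,
  ⟨28, 1, ⟨Int.ofNat 0, Int.ofNat 1, Int.ofNat 1, 1⟩, true, 1, ⟨⟨Int.negSucc 0, 0⟩, ⟨Int.negSucc 0, 0⟩, ⟨Int.ofNat 1, 0⟩⟩⟩,
  ⟨29, 1, ⟨Int.ofNat 0, Int.ofNat 2, Int.ofNat 1, 1⟩, true, 1, ⟨⟨Int.negSucc 0, 0⟩, ⟨Int.ofNat 0, 0⟩, ⟨Int.ofNat 1, 0⟩⟩⟩,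
  ⟨30, 5, ⟨Int.ofNat 1, Int.ofNat 0, Int.ofNat 1, 1⟩, true, 1, ⟨⟨Int.ofNat 0, 0⟩, ⟨Int.ofNat 1, 0⟩, ⟨Int.ofNat 1, 0⟩⟩⟩,
  ⟨31, 1, ⟨Int.ofNat 1, Int.ofNat 1, Int.ofNat 1, 1⟩, true, 1, ⟨⟨Int.ofNat 0, 0⟩, ⟨Int.negSucc 0, 0⟩, ⟨Int.ofNat 1, 0⟩⟩⟩,
  ⟨32, 1, ⟨Int.ofNat 1, Int.ofNat 2, Int.ofNat 1, 1⟩, true, 1, ⟨⟨Int.ofNat 0, 0⟩, ⟨Int.ofNat 0, 0⟩, ⟨Int.ofNat 1, 0⟩⟩⟩], (Int.negSucc 2, Int.negSucc 7, Int.negSucc 11)⟩,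
⟨⟨Int.ofNat 2, Int.ofNat 0, Int.ofNat 0, 1⟩, [⟨9, 10, ⟨Int.ofNat 0, Int.ofNat 0, Int.ofNat 0, 1⟩, false, 1, ⟨⟨Int.ofNat 1, 0⟩, ⟨Int.ofNat 0, 0⟩, ⟨Int.ofNat 0, 0⟩⟩⟩,
  ⟨10, 10, ⟨Int.ofNat 0, Int.ofNat 1, Int.ofNat 0, 1⟩, false, 1, ⟨⟨Int.ofNat 1, 0⟩, ⟨Int.ofNat 1, 0⟩, ⟨Int.ofNat 0, 0⟩⟩⟩,
  ⟨12, 0, ⟨Int.ofNat 1, Int.ofNat 0, Int.ofNat 0, 1⟩, false, 1, ⟨⟨Int.negSucc 0, 0⟩, ⟨Int.ofNat 0, 0⟩, ⟨Int.ofNat 0, 0⟩⟩⟩,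
  ⟨14, 4, ⟨Int.ofNat 1, Int.ofNat 2, Int.ofNat 0, 1⟩, false, 1, ⟨⟨Int.negSucc 0, 0⟩, ⟨Int.negSucc 0, 0⟩, ⟨Int.ofNat 0, 0⟩⟩⟩,
  ⟨16, 0, ⟨Int.ofNat 2, Int.ofNat 1, Int.ofNat 0, 1⟩, false, 1, ⟨⟨Int.ofNat 0, 0⟩, ⟨Int.ofNat 1, 0⟩, ⟨Int.ofNat 0, 0⟩⟩⟩,
  ⟨17, 4, ⟨Int.ofNat 2, Int.ofNat 2, Int.ofNat 0, 1⟩, false, 1, ⟨⟨Int.ofNat 0, 0⟩, ⟨Int.negSucc 0, 0⟩, ⟨Int.ofNat 0, 0⟩⟩⟩,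
  ⟨18, 11, ⟨Int.ofNat 0, Int.ofNat 0, Int.ofNat 1, 1⟩, false, 1, ⟨⟨Int.ofNat 1, 0⟩, ⟨Int.ofNat 0, 0⟩, ⟨Int.negSucc 0, 0⟩⟩⟩,
  ⟨19, 11, ⟨Int.ofNat 0, Int.ofNat 1, Int.ofNat 1, 1⟩, false, 1, ⟨⟨Int.ofNat 1, 0⟩, ⟨Int.ofNat 1, 0⟩, ⟨Int.negSucc 0, 0⟩⟩⟩,
  ⟨21, 1, ⟨Int.ofNat 1, Int.ofNat 0, Int.ofNat 1, 1⟩, false, 1, ⟨⟨Int.negSucc 0, 0⟩, ⟨Int.ofNat 0, 0⟩, ⟨Int.negSucc 0, 0⟩⟩⟩,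
  ⟨23, 7, ⟨Int.ofNat 1, Int.ofNat 2, Int.ofNat 1, 1⟩, false, 1, ⟨⟨Int.negSucc 0, 0⟩, ⟨Int.negSucc 0, 0⟩, ⟨Int.negSucc 0, 0⟩⟩⟩,
  ⟨24, 1, ⟨Int.ofNat 2, Int.ofNat 0, Int.ofNat 1, 1⟩, false, 1, ⟨⟨Int.ofNat 0, 0⟩, ⟨Int.ofNat 0, 0⟩, ⟨Int.negSucc 0, 0⟩⟩⟩,
  ⟨27, 11, ⟨Int.ofNat 0, Int.ofNat 0, Int.ofNat 1, 1⟩, true, 1, ⟨⟨Int.ofNat 1, 0⟩, ⟨Int.ofNat 0, 0⟩, ⟨Int.ofNat 1, 0⟩⟩⟩,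
  ⟨28, 11, ⟨Int.ofNat 0, Int.ofNat 1, Int.ofNat 1, 1⟩, true, 1, ⟨⟨Int.ofNat 1, 0⟩, ⟨Int.ofNat 1, 0⟩, ⟨Int.ofNat 1, 0⟩⟩⟩,
  ⟨30, 1, ⟨Int.ofNat 1, Int.ofNat 0, Int.ofNat 1, 1⟩, true, 1, ⟨⟨Int.negSucc 0, 0⟩, ⟨Int.ofNat 0, 0⟩, ⟨Int.ofNat 1, 0⟩⟩⟩,
  ⟨32, 7, ⟨Int.ofNat 1, Int.ofNat 2, Int.ofNat 1, 1⟩, true, 1, ⟨⟨Int.negSucc 0, 0⟩, ⟨Int.negSucc 0, 0⟩, ⟨Int.ofNat 1, 0⟩⟩⟩,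
  ⟨33, 1, ⟨Int.ofNat 2, Int.ofNat 0, Int.ofNat 1, 1⟩, true, 1, ⟨⟨Int.ofNat 0, 0⟩, ⟨Int.ofNat 0, 0⟩, ⟨Int.ofNat 1, 0⟩⟩⟩], (Int.negSucc 7, Int.negSucc 4, Int.negSucc 11)⟩,
⟨⟨Int.ofNat 2, Int.ofNat 1, Int.ofNat 0, 1⟩, [⟨10, 10, ⟨Int.ofNat 0, Int.ofNat 1, Int.ofNat 0, 1⟩, false, 1, ⟨⟨Int.ofNat 1, 0⟩, ⟨Int.ofNat 0, 0⟩, ⟨Int.ofNat 0, 0⟩⟩⟩,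
  ⟨11, 10, ⟨Int.ofNat 0, Int.ofNat 2, Int.ofNat 0, 1⟩, false, 1, ⟨⟨Int.ofNat 1, 0⟩, ⟨Int.ofNat 1, 0⟩, ⟨Int.ofNat 0, 0⟩⟩⟩,
  ⟨12, 0, ⟨Int.ofNat 1, Int.ofNat 0, Int.ofNat 0, 1⟩, false, 1, ⟨⟨Int.negSucc 0, 0⟩, ⟨Int.negSucc 0, 0⟩, ⟨Int.ofNat 0, 0⟩⟩⟩,
  ⟨13, 0, ⟨Int.ofNat 1, Int.ofNat 1, Int.ofNat 0, 1⟩, false, 1, ⟨⟨Int.negSucc 0, 0⟩, ⟨Int.ofNat 0, 0⟩, ⟨Int.ofNat 0, 0⟩⟩⟩,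
  ⟨15, 0, ⟨Int.ofNat 2, Int.ofNat 0, Int.ofNat 0, 1⟩, false, 1, ⟨⟨Int.ofNat 0, 0⟩, ⟨Int.negSucc 0, 0⟩, ⟨Int.ofNat 0, 0⟩⟩⟩,
  ⟨17, 0, ⟨Int.ofNat 2, Int.ofNat 2, Int.ofNat 0, 1⟩, false, 1, ⟨⟨Int.ofNat 0, 0⟩, ⟨Int.ofNat 1, 0⟩, ⟨Int.ofNat 0, 0⟩⟩⟩,
  ⟨19, 11, ⟨Int.ofNat 0, Int.ofNat 1, Int.ofNat 1, 1⟩, false, 1, ⟨⟨Int.ofNat 1, 0⟩, ⟨Int.ofNat 0, 0⟩, ⟨Int.negSucc 0, 0⟩⟩⟩,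
  ⟨20, 11, ⟨Int.ofNat 0, Int.ofNat 2, Int.ofNat 1, 1⟩, false, 1, ⟨⟨Int.ofNat 1, 0⟩, ⟨Int.ofNat 1, 0⟩, ⟨Int.negSucc 0, 0⟩⟩⟩,
  ⟨21, 1, ⟨Int.ofNat 1, Int.ofNat 0, Int.ofNat 1, 1⟩, false, 1, ⟨⟨Int.negSucc 0, 0⟩, ⟨Int.negSucc 0, 0⟩, ⟨Int.negSucc 0, 0⟩⟩⟩,
  ⟨22, 1, ⟨Int.ofNat 1, Int.ofNat 1, Int.ofNat 1, 1⟩, false, 1, ⟨⟨Int.negSucc 0, 0⟩, ⟨Int.ofNat 0, 0⟩, ⟨Int.negSucc 0, 0⟩⟩⟩,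
  ⟨24, 1, ⟨Int.ofNat 2, Int.ofNat 0, Int.ofNat 1, 1⟩, false, 1, ⟨⟨Int.ofNat 0, 0⟩, ⟨Int.negSucc 0, 0⟩, ⟨Int.negSucc 0, 0⟩⟩⟩,
  ⟨25, 1, ⟨Int.ofNat 2, Int.ofNat 1, Int.ofNat 1, 1⟩, false, 1, ⟨⟨Int.ofNat 0, 0⟩, ⟨Int.ofNat 0, 0⟩, ⟨Int.negSucc 0, 0⟩⟩⟩,
  ⟨28, 11, ⟨Int.ofNat 0, Int.ofNat 1, Int.ofNat 1, 1⟩, true, 1, ⟨⟨Int.ofNat 1, 0⟩, ⟨Int.ofNat 0, 0⟩, ⟨Int.ofNat 1, 0⟩⟩⟩,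
  ⟨29, 11, ⟨Int.ofNat 0, Int.ofNat 2, Int.ofNat 1, 1⟩, true, 1, ⟨⟨Int.ofNat 1, 0⟩, ⟨Int.ofNat 1, 0⟩, ⟨Int.ofNat 1, 0⟩⟩⟩,
  ⟨30, 1, ⟨Int.ofNat 1, Int.ofNat 0, Int.ofNat 1, 1⟩, true, 1, ⟨⟨Int.negSucc 0, 0⟩, ⟨Int.negSucc 0, 0⟩, ⟨Int.ofNat 1, 0⟩⟩⟩,
  ⟨31, 1, ⟨Int.ofNat 1, Int.ofNat 1, Int.ofNat 1, 1⟩, true, 1, ⟨⟨Int.negSucc 0, 0⟩, ⟨Int.ofNat 0, 0⟩, ⟨Int.ofNat 1, 0⟩⟩⟩,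
  ⟨33, 1, ⟨Int.ofNat 2, Int.ofNat 0, Int.ofNat 1, 1⟩, true, 1, ⟨⟨Int.ofNat 0, 0⟩, ⟨Int.negSucc 0, 0⟩, ⟨Int.ofNat 1, 0⟩⟩⟩,
  ⟨34, 1, ⟨Int.ofNat 2, Int.ofNat 1, Int.ofNat 1, 1⟩, true, 1, ⟨⟨Int.ofNat 0, 0⟩, ⟨Int.ofNat 0, 0⟩, ⟨Int.ofNat 1, 0⟩⟩⟩], (Int.negSucc 2, Int.negSucc 7, Int.negSucc 11)⟩,
⟨⟨Int.ofNat 2, Int.ofNat 2, Int.ofNat 0, 1⟩, [⟨9, 14, ⟨Int.ofNat 0, Int.ofNat 0, Int.ofNat 0, 1⟩, false, 1, ⟨⟨Int.ofNat 1, 0⟩, ⟨Int.ofNat 1, 0⟩, ⟨Int.ofNat 0, 0⟩⟩⟩,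
  ⟨11, 10, ⟨Int.ofNat 0, Int.ofNat 2, Int.ofNat 0, 1⟩, false, 1, ⟨⟨Int.ofNat 1, 0⟩, ⟨Int.ofNat 0, 0⟩, ⟨Int.ofNat 0, 0⟩⟩⟩,
  ⟨13, 0, ⟨Int.ofNat 1, Int.ofNat 1, Int.ofNat 0, 1⟩, false, 1, ⟨⟨Int.negSucc 0, 0⟩, ⟨Int.negSucc 0, 0⟩, ⟨Int.ofNat 0, 0⟩⟩⟩,
  ⟨14, 0, ⟨Int.ofNat 1, Int.ofNat 2, Int.ofNat 0, 1⟩, false, 1, ⟨⟨Int.negSucc 0, 0⟩, ⟨Int.ofNat 0, 0⟩, ⟨Int.ofNat 0, 0⟩⟩⟩,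
  ⟨15, 3, ⟨Int.ofNat 2, Int.ofNat 0, Int.ofNat 0, 1⟩, false, 1, ⟨⟨Int.ofNat 0, 0⟩, ⟨Int.ofNat 1, 0⟩, ⟨Int.ofNat 0, 0⟩⟩⟩,
  ⟨16, 0, ⟨Int.ofNat 2, Int.ofNat 1, Int.ofNat 0, 1⟩, false, 1, ⟨⟨Int.ofNat 0, 0⟩, ⟨Int.negSucc 0, 0⟩, ⟨Int.ofNat 0, 0⟩⟩⟩,
  ⟨18, 15, ⟨Int.ofNat 0, Int.ofNat 0, Int.ofNat 1, 1⟩, false, 1, ⟨⟨Int.ofNat 1, 0⟩, ⟨Int.ofNat 1, 0⟩, ⟨Int.negSucc 0, 0⟩⟩⟩,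
  ⟨20, 11, ⟨Int.ofNat 0, Int.ofNat 2, Int.ofNat 1, 1⟩, false, 1, ⟨⟨Int.ofNat 1, 0⟩, ⟨Int.ofNat 0, 0⟩, ⟨Int.negSucc 0, 0⟩⟩⟩,
  ⟨22, 1, ⟨Int.ofNat 1, Int.ofNat 1, Int.ofNat 1, 1⟩, false, 1, ⟨⟨Int.negSucc 0, 0⟩, ⟨Int.negSucc 0, 0⟩, ⟨Int.negSucc 0, 0⟩⟩⟩,
  ⟨23, 1, ⟨Int.ofNat 1, Int.ofNat 2, Int.ofNat 1, 1⟩, false, 1, ⟨⟨Int.negSucc 0, 0⟩, ⟨Int.ofNat 0, 0⟩, ⟨Int.negSucc 0, 0⟩⟩⟩,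
  ⟨24, 5, ⟨Int.ofNat 2, Int.ofNat 0, Int.ofNat 1, 1⟩, false, 1, ⟨⟨Int.ofNat 0, 0⟩, ⟨Int.ofNat 1, 0⟩, ⟨Int.negSucc 0, 0⟩⟩⟩,
  ⟨25, 1, ⟨Int.ofNat 2, Int.ofNat 1, Int.ofNat 1, 1⟩, false, 1, ⟨⟨Int.ofNat 0, 0⟩, ⟨Int.negSucc 0, 0⟩, ⟨Int.negSucc 0, 0⟩⟩⟩,
  ⟨26, 1, ⟨Int.ofNat 2, Int.ofNat 2, Int.ofNat 1, 1⟩, false, 1, ⟨⟨Int.ofNat 0, 0⟩, ⟨Int.ofNat 0, 0⟩, ⟨Int.negSucc 0, 0⟩⟩⟩,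
  ⟨27, 15, ⟨Int.ofNat 0, Int.ofNat 0, Int.ofNat 1, 1⟩, true, 1, ⟨⟨Int.ofNat 1, 0⟩, ⟨Int.ofNat 1, 0⟩, ⟨Int.ofNat 1, 0⟩⟩⟩,
  ⟨29, 11, ⟨Int.ofNat 0, Int.ofNat 2, Int.ofNat 1, 1⟩, true, 1, ⟨⟨Int.ofNat 1, 0⟩, ⟨Int.ofNat 0, 0⟩, ⟨Int.ofNat 1, 0⟩⟩⟩,
  ⟨31, 1, ⟨Int.ofNat 1, Int.ofNat 1, Int.ofNat 1, 1⟩, true, 1, ⟨⟨Int.negSucc 0, 0⟩, ⟨Int.negSucc 0, 0⟩, ⟨Int.ofNat 1, 0⟩⟩⟩,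
  ⟨32, 1, ⟨Int.ofNat 1, Int.ofNat 2, Int.ofNat 1, 1⟩, true, 1, ⟨⟨Int.negSucc 0, 0⟩, ⟨Int.ofNat 0, 0⟩, ⟨Int.ofNat 1, 0⟩⟩⟩,
  ⟨33, 5, ⟨Int.ofNat 2, Int.ofNat 0, Int.ofNat 1, 1⟩, true, 1, ⟨⟨Int.ofNat 0, 0⟩, ⟨Int.ofNat 1, 0⟩, ⟨Int.ofNat 1, 0⟩⟩⟩,
  ⟨34, 1, ⟨Int.ofNat 2, Int.ofNat 1, Int.ofNat 1, 1⟩, true, 1, ⟨⟨Int.ofNat 0, 0⟩, ⟨Int.negSucc 0, 0⟩, ⟨Int.ofNat 1, 0⟩⟩⟩,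
  ⟨35, 1, ⟨Int.ofNat 2, Int.ofNat 2, Int.ofNat 1, 1⟩, true, 1, ⟨⟨Int.ofNat 0, 0⟩, ⟨Int.ofNat 0, 0⟩, ⟨Int.ofNat 1, 0⟩⟩⟩], (Int.negSucc 2, Int.negSucc 7, Int.negSucc 11)⟩,
⟨⟨Int.ofNat 0, Int.ofNat 0, Int.ofNat 1, 1⟩, [⟨0, 0, ⟨Int.ofNat 0, Int.ofNat 0, Int.ofNat 0, 1⟩, false, 1, ⟨⟨Int.ofNat 0, 0⟩, ⟨Int.ofNat 0, 0⟩, ⟨Int.negSucc 0, 0⟩⟩⟩,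
  ⟨9, 2, ⟨Int.ofNat 0, Int.ofNat 0, Int.ofNat 0, 1⟩, false, 1, ⟨⟨Int.ofNat 0, 0⟩, ⟨Int.ofNat 0, 0⟩, ⟨Int.ofNat 1, 0⟩⟩⟩,
  ⟨10, 2, ⟨Int.ofNat 0, Int.ofNat 1, Int.ofNat 0, 1⟩, false, 1, ⟨⟨Int.ofNat 0, 0⟩, ⟨Int.ofNat 1, 0⟩, ⟨Int.ofNat 1, 0⟩⟩⟩,
  ⟨11, 6, ⟨Int.ofNat 0, Int.ofNat 2, Int.ofNat 0, 1⟩, false, 1, ⟨⟨Int.ofNat 0, 0⟩, ⟨Int.negSucc 0, 0⟩, ⟨Int.ofNat 1, 0⟩⟩⟩,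
  ⟨12, 2, ⟨Int.ofNat 1, Int.ofNat 0, Int.ofNat 0, 1⟩, false, 1, ⟨⟨Int.ofNat 1, 0⟩, ⟨Int.ofNat 0, 0⟩, ⟨Int.ofNat 1, 0⟩⟩⟩,
  ⟨13, 2, ⟨Int.ofNat 1, Int.ofNat 1, Int.ofNat 0, 1⟩, false, 1, ⟨⟨Int.ofNat 1, 0⟩, ⟨Int.ofNat 1, 0⟩, ⟨Int.ofNat 1, 0⟩⟩⟩,
  ⟨15, 12, ⟨Int.ofNat 2, Int.ofNat 0, Int.ofNat 0, 1⟩, false, 1, ⟨⟨Int.negSucc 0, 0⟩, ⟨Int.ofNat 0, 0⟩, ⟨Int.ofNat 1, 0⟩⟩⟩,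
  ⟨17, 16, ⟨Int.ofNat 2, Int.ofNat 2, Int.ofNat 0, 1⟩, false, 1, ⟨⟨Int.negSucc 0, 0⟩, ⟨Int.negSucc 0, 0⟩, ⟨Int.ofNat 1, 0⟩⟩⟩,
  ⟨19, 0, ⟨Int.ofNat 0, Int.ofNat 1, Int.ofNat 1, 1⟩, false, 1, ⟨⟨Int.ofNat 0, 0⟩, ⟨Int.ofNat 1, 0⟩, ⟨Int.ofNat 0, 0⟩⟩⟩,
  ⟨20, 4, ⟨Int.ofNat 0, Int.ofNat 2, Int.ofNat 1, 1⟩, false, 1, ⟨⟨Int.ofNat 0, 0⟩, ⟨Int.negSucc 0, 0⟩, ⟨Int.ofNat 0, 0⟩⟩⟩,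
  ⟨21, 0, ⟨Int.ofNat 1, Int.ofNat 0, Int.ofNat 1, 1⟩, false, 1, ⟨⟨Int.ofNat 1, 0⟩, ⟨Int.ofNat 0, 0⟩, ⟨Int.ofNat 0, 0⟩⟩⟩,
  ⟨22, 0, ⟨Int.ofNat 1, Int.ofNat 1, Int.ofNat 1, 1⟩, false, 1, ⟨⟨Int.ofNat 1, 0⟩, ⟨Int.ofNat 1, 0⟩, ⟨Int.ofNat 0, 0⟩⟩⟩,
  ⟨24, 9, ⟨Int.ofNat 2, Int.ofNat 0, Int.ofNat 1, 1⟩, false, 1, ⟨⟨Int.negSucc 0, 0⟩, ⟨Int.ofNat 0, 0⟩, ⟨Int.ofNat 0, 0⟩⟩⟩,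
  ⟨26, 13, ⟨Int.ofNat 2, Int.ofNat 2, Int.ofNat 1, 1⟩, false, 1, ⟨⟨Int.negSucc 0, 0⟩, ⟨Int.negSucc 0, 0⟩, ⟨Int.ofNat 0, 0⟩⟩⟩], (Int.negSucc 7, Int.ofNat 4, Int.ofNat 3)⟩,
⟨⟨Int.ofNat 0, Int.ofNat 1, Int.ofNat 1, 1⟩, [⟨0, 0, ⟨Int.ofNat 0, Int.ofNat 0, Int.ofNat 0, 1⟩, false, 1, ⟨⟨Int.ofNat 0, 0⟩, ⟨Int.negSucc 0, 0⟩, ⟨Int.negSucc 0, 0⟩⟩⟩,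
  ⟨1, 0, ⟨Int.ofNat 0, Int.ofNat 1, Int.ofNat 0, 1⟩, false, 1, ⟨⟨Int.ofNat 0, 0⟩, ⟨Int.ofNat 0, 0⟩, ⟨Int.negSucc 0, 0⟩⟩⟩,
  ⟨10, 2, ⟨Int.ofNat 0, Int.ofNat 1, Int.ofNat 0, 1⟩, false, 1, ⟨⟨Int.ofNat 0, 0⟩, ⟨Int.ofNat 0, 0⟩, ⟨Int.ofNat 1, 0⟩⟩⟩,
  ⟨11, 2, ⟨Int.ofNat 0, Int.ofNat 2, Int.ofNat 0, 1⟩, false, 1, ⟨⟨Int.ofNat 0, 0⟩, ⟨Int.ofNat 1, 0⟩, ⟨Int.ofNat 1, 0⟩⟩⟩,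
  ⟨13, 2, ⟨Int.ofNat 1, Int.ofNat 1, Int.ofNat 0, 1⟩, false, 1, ⟨⟨Int.ofNat 1, 0⟩, ⟨Int.ofNat 0, 0⟩, ⟨Int.ofNat 1, 0⟩⟩⟩,
  ⟨14, 2, ⟨Int.ofNat 1, Int.ofNat 2, Int.ofNat 0, 1⟩, false, 1, ⟨⟨Int.ofNat 1, 0⟩, ⟨Int.ofNat 1, 0⟩, ⟨Int.ofNat 1, 0⟩⟩⟩,
  ⟨15, 12, ⟨Int.ofNat 2, Int.ofNat 0, Int.ofNat 0, 1⟩, false, 1, ⟨⟨Int.negSucc 0, 0⟩, ⟨Int.negSucc 0, 0⟩, ⟨Int.ofNat 1, 0⟩⟩⟩,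
  ⟨16, 12, ⟨Int.ofNat 2, Int.ofNat 1, Int.ofNat 0, 1⟩, false, 1, ⟨⟨Int.negSucc 0, 0⟩, ⟨Int.ofNat 0, 0⟩, ⟨Int.ofNat 1, 0⟩⟩⟩,
  ⟨18, 0, ⟨Int.ofNat 0, Int.ofNat 0, Int.ofNat 1, 1⟩, false, 1, ⟨⟨Int.ofNat 0, 0⟩, ⟨Int.negSucc 0, 0⟩, ⟨Int.ofNat 0, 0⟩⟩⟩,
  ⟨20, 0, ⟨Int.ofNat 0, Int.ofNat 2, Int.ofNat 1, 1⟩, false, 1, ⟨⟨Int.ofNat 0, 0⟩, ⟨Int.ofNat 1, 0⟩, ⟨Int.ofNat 0, 0⟩⟩⟩,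
  ⟨22, 0, ⟨Int.ofNat 1, Int.ofNat 1, Int.ofNat 1, 1⟩, false, 1, ⟨⟨Int.ofNat 1, 0⟩, ⟨Int.ofNat 0, 0⟩, ⟨Int.ofNat 0, 0⟩⟩⟩,
  ⟨23, 0, ⟨Int.ofNat 1, Int.ofNat 2, Int.ofNat 1, 1⟩, false, 1, ⟨⟨Int.ofNat 1, 0⟩, ⟨Int.ofNat 1, 0⟩, ⟨Int.ofNat 0, 0⟩⟩⟩,
  ⟨24, 9, ⟨Int.ofNat 2, Int.ofNat 0, Int.ofNat 1, 1⟩, false, 1, ⟨⟨Int.negSucc 0, 0⟩, ⟨Int.negSucc 0, 0⟩, ⟨Int.ofNat 0, 0⟩⟩⟩,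
  ⟨25, 9, ⟨Int.ofNat 2, Int.ofNat 1, Int.ofNat 1, 1⟩, false, 1, ⟨⟨Int.negSucc 0, 0⟩, ⟨Int.ofNat 0, 0⟩, ⟨Int.ofNat 0, 0⟩⟩⟩], (Int.negSucc 11, Int.negSucc 4, Int.ofNat 3)⟩,
⟨⟨Int.ofNat 0, Int.ofNat 2, Int.ofNat 1, 1⟩, [⟨0, 3, ⟨Int.ofNat 0, Int.ofNat 0, Int.ofNat 0, 1⟩, false, 1, ⟨⟨Int.ofNat 0, 0⟩, ⟨Int.ofNat 1, 0⟩, ⟨Int.negSucc 0, 0⟩⟩⟩,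
  ⟨1, 0, ⟨Int.ofNat 0, Int.ofNat 1, Int.ofNat 0, 1⟩, false, 1, ⟨⟨Int.ofNat 0, 0⟩, ⟨Int.negSucc 0, 0⟩, ⟨Int.negSucc 0, 0⟩⟩⟩,
  ⟨2, 0, ⟨Int.ofNat 0, Int.ofNat 2, Int.ofNat 0, 1⟩, false, 1, ⟨⟨Int.ofNat 0, 0⟩, ⟨Int.ofNat 0, 0⟩, ⟨Int.negSucc 0, 0⟩⟩⟩,
  ⟨11, 2, ⟨Int.ofNat 0, Int.ofNat 2, Int.ofNat 0, 1⟩, false, 1, ⟨⟨Int.ofNat 0, 0⟩, ⟨Int.ofNat 0, 0⟩, ⟨Int.ofNat 1, 0⟩⟩⟩,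
  ⟨12, 8, ⟨Int.ofNat 1, Int.ofNat 0, Int.ofNat 0, 1⟩, false, 1, ⟨⟨Int.ofNat 1, 0⟩, ⟨Int.ofNat 1, 0⟩, ⟨Int.ofNat 1, 0⟩⟩⟩,
  ⟨14, 2, ⟨Int.ofNat 1, Int.ofNat 2, Int.ofNat 0, 1⟩, false, 1, ⟨⟨Int.ofNat 1, 0⟩, ⟨Int.ofNat 0, 0⟩, ⟨Int.ofNat 1, 0⟩⟩⟩,
  ⟨16, 12, ⟨Int.ofNat 2, Int.ofNat 1, Int.ofNat 0, 1⟩, false, 1, ⟨⟨Int.negSucc 0, 0⟩, ⟨Int.negSucc 0, 0⟩, ⟨Int.ofNat 1, 0⟩⟩⟩,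
  ⟨17, 12, ⟨Int.ofNat 2, Int.ofNat 2, Int.ofNat 0, 1⟩, false, 1, ⟨⟨Int.negSucc 0, 0⟩, ⟨Int.ofNat 0, 0⟩, ⟨Int.ofNat 1, 0⟩⟩⟩,
  ⟨18, 3, ⟨Int.ofNat 0, Int.ofNat 0, Int.ofNat 1, 1⟩, false, 1, ⟨⟨Int.ofNat 0, 0⟩, ⟨Int.ofNat 1, 0⟩, ⟨Int.ofNat 0, 0⟩⟩⟩,
  ⟨19, 0, ⟨Int.ofNat 0, Int.ofNat 1, Int.ofNat 1, 1⟩, false, 1, ⟨⟨Int.ofNat 0, 0⟩, ⟨Int.negSucc 0, 0⟩, ⟨Int.ofNat 0, 0⟩⟩⟩,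
  ⟨21, 3, ⟨Int.ofNat 1, Int.ofNat 0, Int.ofNat 1, 1⟩, false, 1, ⟨⟨Int.ofNat 1, 0⟩, ⟨Int.ofNat 1, 0⟩, ⟨Int.ofNat 0, 0⟩⟩⟩,
  ⟨23, 0, ⟨Int.ofNat 1, Int.ofNat 2, Int.ofNat 1, 1⟩, false, 1, ⟨⟨Int.ofNat 1, 0⟩, ⟨Int.ofNat 0, 0⟩, ⟨Int.ofNat 0, 0⟩⟩⟩,
  ⟨25, 9, ⟨Int.ofNat 2, Int.ofNat 1, Int.ofNat 1, 1⟩, false, 1, ⟨⟨Int.negSucc 0, 0⟩, ⟨Int.negSucc 0, 0⟩, ⟨Int.ofNat 0, 0⟩⟩⟩,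
  ⟨26, 9, ⟨Int.ofNat 2, Int.ofNat 2, Int.ofNat 1, 1⟩, false, 1, ⟨⟨Int.negSucc 0, 0⟩, ⟨Int.ofNat 0, 0⟩, ⟨Int.ofNat 0, 0⟩⟩⟩], (Int.negSucc 11, Int.negSucc 4, Int.ofNat 3)⟩,
⟨⟨Int.ofNat 1, Int.ofNat 0, Int.ofNat 1, 1⟩, [⟨0, 0, ⟨Int.ofNat 0, Int.ofNat 0, Int.ofNat 0, 1⟩, false, 1, ⟨⟨Int.negSucc 0, 0⟩, ⟨Int.ofNat 0, 0⟩, ⟨Int.negSucc 0, 0⟩⟩⟩,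
  ⟨2, 4, ⟨Int.ofNat 0, Int.ofNat 2, Int.ofNat 0, 1⟩, false, 1, ⟨⟨Int.negSucc 0, 0⟩, ⟨Int.negSucc 0, 0⟩, ⟨Int.negSucc 0, 0⟩⟩⟩,
  ⟨3, 0, ⟨Int.ofNat 1, Int.ofNat 0, Int.ofNat 0, 1⟩, false, 1, ⟨⟨Int.ofNat 0, 0⟩, ⟨Int.ofNat 0, 0⟩, ⟨Int.negSucc 0, 0⟩⟩⟩,
  ⟨12, 2, ⟨Int.ofNat 1, Int.ofNat 0, Int.ofNat 0, 1⟩, false, 1, ⟨⟨Int.ofNat 0, 0⟩, ⟨Int.ofNat 0, 0⟩, ⟨Int.ofNat 1, 0⟩⟩⟩,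
  ⟨13, 2, ⟨Int.ofNat 1, Int.ofNat 1, Int.ofNat 0, 1⟩, false, 1, ⟨⟨Int.ofNat 0, 0⟩, ⟨Int.ofNat 1, 0⟩, ⟨Int.ofNat 1, 0⟩⟩⟩,
  ⟨14, 6, ⟨Int.ofNat 1, Int.ofNat 2, Int.ofNat 0, 1⟩, false, 1, ⟨⟨Int.ofNat 0, 0⟩, ⟨Int.negSucc 0, 0⟩, ⟨Int.ofNat 1, 0⟩⟩⟩,
  ⟨15, 2, ⟨Int.ofNat 2, Int.ofNat 0, Int.ofNat 0, 1⟩, false, 1, ⟨⟨Int.ofNat 1, 0⟩, ⟨Int.ofNat 0, 0⟩, ⟨Int.ofNat 1, 0⟩⟩⟩,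
  ⟨16, 2, ⟨Int.ofNat 2, Int.ofNat 1, Int.ofNat 0, 1⟩, false, 1, ⟨⟨Int.ofNat 1, 0⟩, ⟨Int.ofNat 1, 0⟩, ⟨Int.ofNat 1, 0⟩⟩⟩,
  ⟨18, 0, ⟨Int.ofNat 0, Int.ofNat 0, Int.ofNat 1, 1⟩, false, 1, ⟨⟨Int.negSucc 0, 0⟩, ⟨Int.ofNat 0, 0⟩, ⟨Int.ofNat 0, 0⟩⟩⟩,
  ⟨20, 4, ⟨Int.ofNat 0, Int.ofNat 2, Int.ofNat 1, 1⟩, false, 1, ⟨⟨Int.negSucc 0, 0⟩, ⟨Int.negSucc 0, 0⟩, ⟨Int.ofNat 0, 0⟩⟩⟩,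
  ⟨22, 0, ⟨Int.ofNat 1, Int.ofNat 1, Int.ofNat 1, 1⟩, false, 1, ⟨⟨Int.ofNat 0, 0⟩, ⟨Int.ofNat 1, 0⟩, ⟨Int.ofNat 0, 0⟩⟩⟩,
  ⟨23, 4, ⟨Int.ofNat 1, Int.ofNat 2, Int.ofNat 1, 1⟩, false, 1, ⟨⟨Int.ofNat 0, 0⟩, ⟨Int.negSucc 0, 0⟩, ⟨Int.ofNat 0, 0⟩⟩⟩,
  ⟨24, 0, ⟨Int.ofNat 2, Int.ofNat 0, Int.ofNat 1, 1⟩, false, 1, ⟨⟨Int.ofNat 1, 0⟩, ⟨Int.ofNat 0, 0⟩, ⟨Int.ofNat 0, 0⟩⟩⟩,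
  ⟨25, 0, ⟨Int.ofNat 2, Int.ofNat 1, Int.ofNat 1, 1⟩, false, 1, ⟨⟨Int.ofNat 1, 0⟩, ⟨Int.ofNat 1, 0⟩, ⟨Int.ofNat 0, 0⟩⟩⟩], (Int.ofNat 9, Int.ofNat 4, Int.negSucc 2)⟩,
⟨⟨Int.ofNat 1, Int.ofNat 1, Int.ofNat 1, 1⟩, [⟨0, 0, ⟨Int.ofNat 0, Int.ofNat 0, Int.ofNat 0, 1⟩, false, 1, ⟨⟨Int.negSucc 0, 0⟩, ⟨Int.negSucc 0, 0⟩, ⟨Int.negSucc 0, 0⟩⟩⟩,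
  ⟨1, 0, ⟨Int.ofNat 0, Int.ofNat 1, Int.ofNat 0, 1⟩, false, 1, ⟨⟨Int.negSucc 0, 0⟩, ⟨Int.ofNat 0, 0⟩, ⟨Int.negSucc 0, 0⟩⟩⟩,
  ⟨3, 0, ⟨Int.ofNat 1, Int.ofNat 0, Int.ofNat 0, 1⟩, false, 1, ⟨⟨Int.ofNat 0, 0⟩, ⟨Int.negSucc 0, 0⟩, ⟨Int.negSucc 0, 0⟩⟩⟩,
  ⟨4, 0, ⟨Int.ofNat 1, Int.ofNat 1, Int.ofNat 0, 1⟩, false, 1, ⟨⟨Int.ofNat 0, 0⟩, ⟨Int.ofNat 0, 0⟩, ⟨Int.negSucc 0, 0⟩⟩⟩,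
  ⟨13, 2, ⟨Int.ofNat 1, Int.ofNat 1, Int.ofNat 0, 1⟩, false, 1, ⟨⟨Int.ofNat 0, 0⟩, ⟨Int.ofNat 0, 0⟩, ⟨Int.ofNat 1, 0⟩⟩⟩,
  ⟨14, 2, ⟨Int.ofNat 1, Int.ofNat 2, Int.ofNat 0, 1⟩, false, 1, ⟨⟨Int.ofNat 0, 0⟩, ⟨Int.ofNat 1, 0⟩, ⟨Int.ofNat 1, 0⟩⟩⟩,
  ⟨16, 2, ⟨Int.ofNat 2, Int.ofNat 1, Int.ofNat 0, 1⟩, false, 1, ⟨⟨Int.ofNat 1, 0⟩, ⟨Int.ofNat 0, 0⟩, ⟨Int.ofNat 1, 0⟩⟩⟩,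
  ⟨17, 2, ⟨Int.ofNat 2, Int.ofNat 2, Int.ofNat 0, 1⟩, false, 1, ⟨⟨Int.ofNat 1, 0⟩, ⟨Int.ofNat 1, 0⟩, ⟨Int.ofNat 1, 0⟩⟩⟩,
  ⟨18, 0, ⟨Int.ofNat 0, Int.ofNat 0, Int.ofNat 1, 1⟩, false, 1, ⟨⟨Int.negSucc 0, 0⟩, ⟨Int.negSucc 0, 0⟩, ⟨Int.ofNat 0, 0⟩⟩⟩,
  ⟨19, 0, ⟨Int.ofNat 0, Int.ofNat 1, Int.ofNat 1, 1⟩, false, 1, ⟨⟨Int.negSucc 0, 0⟩, ⟨Int.ofNat 0, 0⟩, ⟨Int.ofNat 0, 0⟩⟩⟩,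
  ⟨21, 0, ⟨Int.ofNat 1, Int.ofNat 0, Int.ofNat 1, 1⟩, false, 1, ⟨⟨Int.ofNat 0, 0⟩, ⟨Int.negSucc 0, 0⟩, ⟨Int.ofNat 0, 0⟩⟩⟩,
  ⟨23, 0, ⟨Int.ofNat 1, Int.ofNat 2, Int.ofNat 1, 1⟩, false, 1, ⟨⟨Int.ofNat 0, 0⟩, ⟨Int.ofNat 1, 0⟩, ⟨Int.ofNat 0, 0⟩⟩⟩,
  ⟨25, 0, ⟨Int.ofNat 2, Int.ofNat 1, Int.ofNat 1, 1⟩, false, 1, ⟨⟨Int.ofNat 1, 0⟩, ⟨Int.ofNat 0, 0⟩, ⟨Int.ofNat 0, 0⟩⟩⟩,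
  ⟨26, 0, ⟨Int.ofNat 2, Int.ofNat 2, Int.ofNat 1, 1⟩, false, 1, ⟨⟨Int.ofNat 1, 0⟩, ⟨Int.ofNat 1, 0⟩, ⟨Int.ofNat 0, 0⟩⟩⟩], (Int.negSucc 4, Int.negSucc 8, Int.negSucc 11)⟩,
⟨⟨Int.ofNat 1, Int.ofNat 2, Int.ofNat 1, 1⟩, [⟨1, 0, ⟨Int.ofNat 0, Int.ofNat 1, Int.ofNat 0, 1⟩, false, 1, ⟨⟨Int.negSucc 0, 0⟩, ⟨Int.negSucc 0, 0⟩, ⟨Int.negSucc 0, 0⟩⟩⟩,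
  ⟨2, 0, ⟨Int.ofNat 0, Int.ofNat 2, Int.ofNat 0, 1⟩, false, 1, ⟨⟨Int.negSucc 0, 0⟩, ⟨Int.ofNat 0, 0⟩, ⟨Int.negSucc 0, 0⟩⟩⟩,
  ⟨3, 3, ⟨Int.ofNat 1, Int.ofNat 0, Int.ofNat 0, 1⟩, false, 1, ⟨⟨Int.ofNat 0, 0⟩, ⟨Int.ofNat 1, 0⟩, ⟨Int.negSucc 0, 0⟩⟩⟩,
  ⟨4, 0, ⟨Int.ofNat 1, Int.ofNat 1, Int.ofNat 0, 1⟩, false, 1, ⟨⟨Int.ofNat 0, 0⟩, ⟨Int.negSucc 0, 0⟩, ⟨Int.negSucc 0, 0⟩⟩⟩,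
  ⟨5, 0, ⟨Int.ofNat 1, Int.ofNat 2, Int.ofNat 0, 1⟩, false, 1, ⟨⟨Int.ofNat 0, 0⟩, ⟨Int.ofNat 0, 0⟩, ⟨Int.negSucc 0, 0⟩⟩⟩,
  ⟨14, 2, ⟨Int.ofNat 1, Int.ofNat 2, Int.ofNat 0, 1⟩, false, 1, ⟨⟨Int.ofNat 0, 0⟩, ⟨Int.ofNat 0, 0⟩, ⟨Int.ofNat 1, 0⟩⟩⟩,
  ⟨15, 8, ⟨Int.ofNat 2, Int.ofNat 0, Int.ofNat 0, 1⟩, false, 1, ⟨⟨Int.ofNat 1, 0⟩, ⟨Int.ofNat 1, 0⟩, ⟨Int.ofNat 1, 0⟩⟩⟩,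
  ⟨17, 2, ⟨Int.ofNat 2, Int.ofNat 2, Int.ofNat 0, 1⟩, false, 1, ⟨⟨Int.ofNat 1, 0⟩, ⟨Int.ofNat 0, 0⟩, ⟨Int.ofNat 1, 0⟩⟩⟩,
  ⟨19, 0, ⟨Int.ofNat 0, Int.ofNat 1, Int.ofNat 1, 1⟩, false, 1, ⟨⟨Int.negSucc 0, 0⟩, ⟨Int.negSucc 0, 0⟩, ⟨Int.ofNat 0, 0⟩⟩⟩,
  ⟨20, 0, ⟨Int.ofNat 0, Int.ofNat 2, Int.ofNat 1, 1⟩, false, 1, ⟨⟨Int.negSucc 0, 0⟩, ⟨Int.ofNat 0, 0⟩, ⟨Int.ofNat 0, 0⟩⟩⟩,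
  ⟨21, 3, ⟨Int.ofNat 1, Int.ofNat 0, Int.ofNat 1, 1⟩, false, 1, ⟨⟨Int.ofNat 0, 0⟩, ⟨Int.ofNat 1, 0⟩, ⟨Int.ofNat 0, 0⟩⟩⟩,
  ⟨22, 0, ⟨Int.ofNat 1, Int.ofNat 1, Int.ofNat 1, 1⟩, false, 1, ⟨⟨Int.ofNat 0, 0⟩, ⟨Int.negSucc 0, 0⟩, ⟨Int.ofNat 0, 0⟩⟩⟩,
  ⟨24, 3, ⟨Int.ofNat 2, Int.ofNat 0, Int.ofNat 1, 1⟩, false, 1, ⟨⟨Int.ofNat 1, 0⟩, ⟨Int.ofNat 1, 0⟩, ⟨Int.ofNat 0, 0⟩⟩⟩,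
  ⟨26, 0, ⟨Int.ofNat 2, Int.ofNat 2, Int.ofNat 1, 1⟩, false, 1, ⟨⟨Int.ofNat 1, 0⟩, ⟨Int.ofNat 0, 0⟩, ⟨Int.ofNat 0, 0⟩⟩⟩], (Int.ofNat 3, Int.negSucc 3, Int.negSucc 8)⟩]
theorem cert_1_ok : chkVs 36 17 1 (fun i => Toy66.tbox (let1 i)) lab pos (foldN 27 18) (sideN 27) T 12 cert_1 = true := by decide +kernel
def cert_2 : List VCert := [⟨⟨Int.ofNat 2, Int.ofNat 0, Int.ofNat 1, 1⟩, [⟨0, 10, ⟨Int.ofNat 0, Int.ofNat 0, Int.ofNat 0, 1⟩, false, 1, ⟨⟨Int.ofNat 1, 0⟩, ⟨Int.ofNat 0, 0⟩, ⟨Int.negSucc 0, 0⟩⟩⟩,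
  ⟨1, 10, ⟨Int.ofNat 0, Int.ofNat 1, Int.ofNat 0, 1⟩, false, 1, ⟨⟨Int.ofNat 1, 0⟩, ⟨Int.ofNat 1, 0⟩, ⟨Int.negSucc 0, 0⟩⟩⟩,
  ⟨3, 0, ⟨Int.ofNat 1, Int.ofNat 0, Int.ofNat 0, 1⟩, false, 1, ⟨⟨Int.negSucc 0, 0⟩, ⟨Int.ofNat 0, 0⟩, ⟨Int.negSucc 0, 0⟩⟩⟩,
  ⟨5, 4, ⟨Int.ofNat 1, Int.ofNat 2, Int.ofNat 0, 1⟩, false, 1, ⟨⟨Int.negSucc 0, 0⟩, ⟨Int.negSucc 0, 0⟩, ⟨Int.negSucc 0, 0⟩⟩⟩,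
  ⟨6, 0, ⟨Int.ofNat 2, Int.ofNat 0, Int.ofNat 0, 1⟩, false, 1, ⟨⟨Int.ofNat 0, 0⟩, ⟨Int.ofNat 0, 0⟩, ⟨Int.negSucc 0, 0⟩⟩⟩,
  ⟨15, 2, ⟨Int.ofNat 2, Int.ofNat 0, Int.ofNat 0, 1⟩, false, 1, ⟨⟨Int.ofNat 0, 0⟩, ⟨Int.ofNat 0, 0⟩, ⟨Int.ofNat 1, 0⟩⟩⟩,
  ⟨16, 2, ⟨Int.ofNat 2, Int.ofNat 1, Int.ofNat 0, 1⟩, false, 1, ⟨⟨Int.ofNat 0, 0⟩, ⟨Int.ofNat 1, 0⟩, ⟨Int.ofNat 1, 0⟩⟩⟩,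
  ⟨17, 6, ⟨Int.ofNat 2, Int.ofNat 2, Int.ofNat 0, 1⟩, false, 1, ⟨⟨Int.ofNat 0, 0⟩, ⟨Int.negSucc 0, 0⟩, ⟨Int.ofNat 1, 0⟩⟩⟩,
  ⟨18, 10, ⟨Int.ofNat 0, Int.ofNat 0, Int.ofNat 1, 1⟩, false, 1, ⟨⟨Int.ofNat 1, 0⟩, ⟨Int.ofNat 0, 0⟩, ⟨Int.ofNat 0, 0⟩⟩⟩,
  ⟨19, 10, ⟨Int.ofNat 0, Int.ofNat 1, Int.ofNat 1, 1⟩, false, 1, ⟨⟨Int.ofNat 1, 0⟩, ⟨Int.ofNat 1, 0⟩, ⟨Int.ofNat 0, 0⟩⟩⟩,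
  ⟨21, 0, ⟨Int.ofNat 1, Int.ofNat 0, Int.ofNat 1, 1⟩, false, 1, ⟨⟨Int.negSucc 0, 0⟩, ⟨Int.ofNat 0, 0⟩, ⟨Int.ofNat 0, 0⟩⟩⟩,
  ⟨23, 4, ⟨Int.ofNat 1, Int.ofNat 2, Int.ofNat 1, 1⟩, false, 1, ⟨⟨Int.negSucc 0, 0⟩, ⟨Int.negSucc 0, 0⟩, ⟨Int.ofNat 0, 0⟩⟩⟩,
  ⟨25, 0, ⟨Int.ofNat 2, Int.ofNat 1, Int.ofNat 1, 1⟩, false, 1, ⟨⟨Int.ofNat 0, 0⟩, ⟨Int.ofNat 1, 0⟩, ⟨Int.ofNat 0, 0⟩⟩⟩,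
  ⟨26, 4, ⟨Int.ofNat 2, Int.ofNat 2, Int.ofNat 1, 1⟩, false, 1, ⟨⟨Int.ofNat 0, 0⟩, ⟨Int.negSucc 0, 0⟩, ⟨Int.ofNat 0, 0⟩⟩⟩], (Int.negSucc 11, Int.negSucc 7, Int.negSucc 8)⟩,
⟨⟨Int.ofNat 2, Int.ofNat 1, Int.ofNat 1, 1⟩, [⟨1, 10, ⟨Int.ofNat 0, Int.ofNat 1, Int.ofNat 0, 1⟩, false, 1, ⟨⟨Int.ofNat 1, 0⟩, ⟨Int.ofNat 0, 0⟩, ⟨Int.negSucc 0, 0⟩⟩⟩,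
  ⟨2, 10, ⟨Int.ofNat 0, Int.ofNat 2, Int.ofNat 0, 1⟩, false, 1, ⟨⟨Int.ofNat 1, 0⟩, ⟨Int.ofNat 1, 0⟩, ⟨Int.negSucc 0, 0⟩⟩⟩,
  ⟨3, 0, ⟨Int.ofNat 1, Int.ofNat 0, Int.ofNat 0, 1⟩, false, 1, ⟨⟨Int.negSucc 0, 0⟩, ⟨Int.negSucc 0, 0⟩, ⟨Int.negSucc 0, 0⟩⟩⟩,
  ⟨4, 0, ⟨Int.ofNat 1, Int.ofNat 1, Int.ofNat 0, 1⟩, false, 1, ⟨⟨Int.negSucc 0, 0⟩, ⟨Int.ofNat 0, 0⟩, ⟨Int.negSucc 0, 0⟩⟩⟩,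
  ⟨6, 0, ⟨Int.ofNat 2, Int.ofNat 0, Int.ofNat 0, 1⟩, false, 1, ⟨⟨Int.ofNat 0, 0⟩, ⟨Int.negSucc 0, 0⟩, ⟨Int.negSucc 0, 0⟩⟩⟩,
  ⟨7, 0, ⟨Int.ofNat 2, Int.ofNat 1, Int.ofNat 0, 1⟩, false, 1, ⟨⟨Int.ofNat 0, 0⟩, ⟨Int.ofNat 0, 0⟩, ⟨Int.negSucc 0, 0⟩⟩⟩,
  ⟨16, 2, ⟨Int.ofNat 2, Int.ofNat 1, Int.ofNat 0, 1⟩, false, 1, ⟨⟨Int.ofNat 0, 0⟩, ⟨Int.ofNat 0, 0⟩, ⟨Int.ofNat 1, 0⟩⟩⟩,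
  ⟨17, 2, ⟨Int.ofNat 2, Int.ofNat 2, Int.ofNat 0, 1⟩, false, 1, ⟨⟨Int.ofNat 0, 0⟩, ⟨Int.ofNat 1, 0⟩, ⟨Int.ofNat 1, 0⟩⟩⟩,
  ⟨19, 10, ⟨Int.ofNat 0, Int.ofNat 1, Int.ofNat 1, 1⟩, false, 1, ⟨⟨Int.ofNat 1, 0⟩, ⟨Int.ofNat 0, 0⟩, ⟨Int.ofNat 0, 0⟩⟩⟩,
  ⟨20, 10, ⟨Int.ofNat 0, Int.ofNat 2, Int.ofNat 1, 1⟩, false, 1, ⟨⟨Int.ofNat 1, 0⟩, ⟨Int.ofNat 1, 0⟩, ⟨Int.ofNat 0, 0⟩⟩⟩,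
  ⟨21, 0, ⟨Int.ofNat 1, Int.ofNat 0, Int.ofNat 1, 1⟩, false, 1, ⟨⟨Int.negSucc 0, 0⟩, ⟨Int.negSucc 0, 0⟩, ⟨Int.ofNat 0, 0⟩⟩⟩,
  ⟨22, 0, ⟨Int.ofNat 1, Int.ofNat 1, Int.ofNat 1, 1⟩, false, 1, ⟨⟨Int.negSucc 0, 0⟩, ⟨Int.ofNat 0, 0⟩, ⟨Int.ofNat 0, 0⟩⟩⟩,
  ⟨24, 0, ⟨Int.ofNat 2, Int.ofNat 0, Int.ofNat 1, 1⟩, false, 1, ⟨⟨Int.ofNat 0, 0⟩, ⟨Int.negSucc 0, 0⟩, ⟨Int.ofNat 0, 0⟩⟩⟩,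
  ⟨26, 0, ⟨Int.ofNat 2, Int.ofNat 2, Int.ofNat 1, 1⟩, false, 1, ⟨⟨Int.ofNat 0, 0⟩, ⟨Int.ofNat 1, 0⟩, ⟨Int.ofNat 0, 0⟩⟩⟩], (Int.negSucc 11, Int.negSucc 4, Int.negSucc 8)⟩,
⟨⟨Int.ofNat 2, Int.ofNat 2, Int.ofNat 1, 1⟩, [⟨0, 14, ⟨Int.ofNat 0, Int.ofNat 0, Int.ofNat 0, 1⟩, false, 1, ⟨⟨Int.ofNat 1, 0⟩, ⟨Int.ofNat 1, 0⟩, ⟨Int.negSucc 0, 0⟩⟩⟩,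
  ⟨2, 10, ⟨Int.ofNat 0, Int.ofNat 2, Int.ofNat 0, 1⟩, false, 1, ⟨⟨Int.ofNat 1, 0⟩, ⟨Int.ofNat 0, 0⟩, ⟨Int.negSucc 0, 0⟩⟩⟩,
  ⟨4, 0, ⟨Int.ofNat 1, Int.ofNat 1, Int.ofNat 0, 1⟩, false, 1, ⟨⟨Int.negSucc 0, 0⟩, ⟨Int.negSucc 0, 0⟩, ⟨Int.negSucc 0, 0⟩⟩⟩,
  ⟨5, 0, ⟨Int.ofNat 1, Int.ofNat 2, Int.ofNat 0, 1⟩, false, 1, ⟨⟨Int.negSucc 0, 0⟩, ⟨Int.ofNat 0, 0⟩, ⟨Int.negSucc 0, 0⟩⟩⟩,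
  ⟨6, 3, ⟨Int.ofNat 2, Int.ofNat 0, Int.ofNat 0, 1⟩, false, 1, ⟨⟨Int.ofNat 0, 0⟩, ⟨Int.ofNat 1, 0⟩, ⟨Int.negSucc 0, 0⟩⟩⟩,
  ⟨7, 0, ⟨Int.ofNat 2, Int.ofNat 1, Int.ofNat 0, 1⟩, false, 1, ⟨⟨Int.ofNat 0, 0⟩, ⟨Int.negSucc 0, 0⟩, ⟨Int.negSucc 0, 0⟩⟩⟩,
  ⟨8, 0, ⟨Int.ofNat 2, Int.ofNat 2, Int.ofNat 0, 1⟩, false, 1, ⟨⟨Int.ofNat 0, 0⟩, ⟨Int.ofNat 0, 0⟩, ⟨Int.negSucc 0, 0⟩⟩⟩,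
  ⟨17, 2, ⟨Int.ofNat 2, Int.ofNat 2, Int.ofNat 0, 1⟩, false, 1, ⟨⟨Int.ofNat 0, 0⟩, ⟨Int.ofNat 0, 0⟩, ⟨Int.ofNat 1, 0⟩⟩⟩,
  ⟨18, 14, ⟨Int.ofNat 0, Int.ofNat 0, Int.ofNat 1, 1⟩, false, 1, ⟨⟨Int.ofNat 1, 0⟩, ⟨Int.ofNat 1, 0⟩, ⟨Int.ofNat 0, 0⟩⟩⟩,
  ⟨20, 10, ⟨Int.ofNat 0, Int.ofNat 2, Int.ofNat 1, 1⟩, false, 1, ⟨⟨Int.ofNat 1, 0⟩, ⟨Int.ofNat 0, 0⟩, ⟨Int.ofNat 0, 0⟩⟩⟩,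
  ⟨22, 0, ⟨Int.ofNat 1, Int.ofNat 1, Int.ofNat 1, 1⟩, false, 1, ⟨⟨Int.negSucc 0, 0⟩, ⟨Int.negSucc 0, 0⟩, ⟨Int.ofNat 0, 0⟩⟩⟩,
  ⟨23, 0, ⟨Int.ofNat 1, Int.ofNat 2, Int.ofNat 1, 1⟩, false, 1, ⟨⟨Int.negSucc 0, 0⟩, ⟨Int.ofNat 0, 0⟩, ⟨Int.ofNat 0, 0⟩⟩⟩,
  ⟨24, 3, ⟨Int.ofNat 2, Int.ofNat 0, Int.ofNat 1, 1⟩, false, 1, ⟨⟨Int.ofNat 0, 0⟩, ⟨Int.ofNat 1, 0⟩, ⟨Int.ofNat 0, 0⟩⟩⟩,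
  ⟨25, 0, ⟨Int.ofNat 2, Int.ofNat 1, Int.ofNat 1, 1⟩, false, 1, ⟨⟨Int.ofNat 0, 0⟩, ⟨Int.negSucc 0, 0⟩, ⟨Int.ofNat 0, 0⟩⟩⟩], (Int.ofNat 5, Int.negSucc 6, Int.negSucc 8)⟩,
⟨⟨Int.ofNat 0, Int.ofNat 0, Int.ofNat 1, 1⟩, [⟨0, 0, ⟨Int.ofNat 0, Int.ofNat 0, Int.ofNat 0, 1⟩, true, 1, ⟨⟨Int.ofNat 0, 0⟩, ⟨Int.ofNat 0, 0⟩, ⟨Int.ofNat 1, 0⟩⟩⟩,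
  ⟨9, 2, ⟨Int.ofNat 0, Int.ofNat 0, Int.ofNat 0, 1⟩, true, 1, ⟨⟨Int.ofNat 0, 0⟩, ⟨Int.ofNat 0, 0⟩, ⟨Int.negSucc 0, 0⟩⟩⟩,
  ⟨10, 2, ⟨Int.ofNat 0, Int.ofNat 1, Int.ofNat 0, 1⟩, true, 1, ⟨⟨Int.ofNat 0, 0⟩, ⟨Int.ofNat 1, 0⟩, ⟨Int.negSucc 0, 0⟩⟩⟩,
  ⟨11, 6, ⟨Int.ofNat 0, Int.ofNat 2, Int.ofNat 0, 1⟩, true, 1, ⟨⟨Int.ofNat 0, 0⟩, ⟨Int.negSucc 0, 0⟩, ⟨Int.negSucc 0, 0⟩⟩⟩,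
  ⟨12, 2, ⟨Int.ofNat 1, Int.ofNat 0, Int.ofNat 0, 1⟩, true, 1, ⟨⟨Int.ofNat 1, 0⟩, ⟨Int.ofNat 0, 0⟩, ⟨Int.negSucc 0, 0⟩⟩⟩,
  ⟨13, 2, ⟨Int.ofNat 1, Int.ofNat 1, Int.ofNat 0, 1⟩, true, 1, ⟨⟨Int.ofNat 1, 0⟩, ⟨Int.ofNat 1, 0⟩, ⟨Int.negSucc 0, 0⟩⟩⟩,
  ⟨15, 12, ⟨Int.ofNat 2, Int.ofNat 0, Int.ofNat 0, 1⟩, true, 1, ⟨⟨Int.negSucc 0, 0⟩, ⟨Int.ofNat 0, 0⟩, ⟨Int.negSucc 0, 0⟩⟩⟩,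
  ⟨17, 16, ⟨Int.ofNat 2, Int.ofNat 2, Int.ofNat 0, 1⟩, true, 1, ⟨⟨Int.negSucc 0, 0⟩, ⟨Int.negSucc 0, 0⟩, ⟨Int.negSucc 0, 0⟩⟩⟩,
  ⟨28, 0, ⟨Int.ofNat 0, Int.ofNat 1, Int.ofNat 1, 1⟩, true, 1, ⟨⟨Int.ofNat 0, 0⟩, ⟨Int.ofNat 1, 0⟩, ⟨Int.ofNat 0, 0⟩⟩⟩,
  ⟨29, 4, ⟨Int.ofNat 0, Int.ofNat 2, Int.ofNat 1, 1⟩, true, 1, ⟨⟨Int.ofNat 0, 0⟩, ⟨Int.negSucc 0, 0⟩, ⟨Int.ofNat 0, 0⟩⟩⟩,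
  ⟨30, 0, ⟨Int.ofNat 1, Int.ofNat 0, Int.ofNat 1, 1⟩, true, 1, ⟨⟨Int.ofNat 1, 0⟩, ⟨Int.ofNat 0, 0⟩, ⟨Int.ofNat 0, 0⟩⟩⟩,
  ⟨31, 0, ⟨Int.ofNat 1, Int.ofNat 1, Int.ofNat 1, 1⟩, true, 1, ⟨⟨Int.ofNat 1, 0⟩, ⟨Int.ofNat 1, 0⟩, ⟨Int.ofNat 0, 0⟩⟩⟩,
  ⟨33, 9, ⟨Int.ofNat 2, Int.ofNat 0, Int.ofNat 1, 1⟩, true, 1, ⟨⟨Int.negSucc 0, 0⟩, ⟨Int.ofNat 0, 0⟩, ⟨Int.ofNat 0, 0⟩⟩⟩,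
  ⟨35, 13, ⟨Int.ofNat 2, Int.ofNat 2, Int.ofNat 1, 1⟩, true, 1, ⟨⟨Int.negSucc 0, 0⟩, ⟨Int.negSucc 0, 0⟩, ⟨Int.ofNat 0, 0⟩⟩⟩], (Int.negSucc 6, Int.ofNat 5, Int.negSucc 2)⟩,
⟨⟨Int.ofNat 0, Int.ofNat 1, Int.ofNat 1, 1⟩, [⟨0, 0, ⟨Int.ofNat 0, Int.ofNat 0, Int.ofNat 0, 1⟩, true, 1, ⟨⟨Int.ofNat 0, 0⟩, ⟨Int.negSucc 0, 0⟩, ⟨Int.ofNat 1, 0⟩⟩⟩,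
  ⟨1, 0, ⟨Int.ofNat 0, Int.ofNat 1, Int.ofNat 0, 1⟩, true, 1, ⟨⟨Int.ofNat 0, 0⟩, ⟨Int.ofNat 0, 0⟩, ⟨Int.ofNat 1, 0⟩⟩⟩,
  ⟨10, 2, ⟨Int.ofNat 0, Int.ofNat 1, Int.ofNat 0, 1⟩, true, 1, ⟨⟨Int.ofNat 0, 0⟩, ⟨Int.ofNat 0, 0⟩, ⟨Int.negSucc 0, 0⟩⟩⟩,
  ⟨11, 2, ⟨Int.ofNat 0, Int.ofNat 2, Int.ofNat 0, 1⟩, true, 1, ⟨⟨Int.ofNat 0, 0⟩, ⟨Int.ofNat 1, 0⟩, ⟨Int.negSucc 0, 0⟩⟩⟩,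
  ⟨13, 2, ⟨Int.ofNat 1, Int.ofNat 1, Int.ofNat 0, 1⟩, true, 1, ⟨⟨Int.ofNat 1, 0⟩, ⟨Int.ofNat 0, 0⟩, ⟨Int.negSucc 0, 0⟩⟩⟩,
  ⟨14, 2, ⟨Int.ofNat 1, Int.ofNat 2, Int.ofNat 0, 1⟩, true, 1, ⟨⟨Int.ofNat 1, 0⟩, ⟨Int.ofNat 1, 0⟩, ⟨Int.negSucc 0, 0⟩⟩⟩,
  ⟨15, 12, ⟨Int.ofNat 2, Int.ofNat 0, Int.ofNat 0, 1⟩, true, 1, ⟨⟨Int.negSucc 0, 0⟩, ⟨Int.negSucc 0, 0⟩, ⟨Int.negSucc 0, 0⟩⟩⟩,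
  ⟨16, 12, ⟨Int.ofNat 2, Int.ofNat 1, Int.ofNat 0, 1⟩, true, 1, ⟨⟨Int.negSucc 0, 0⟩, ⟨Int.ofNat 0, 0⟩, ⟨Int.negSucc 0, 0⟩⟩⟩,
  ⟨27, 0, ⟨Int.ofNat 0, Int.ofNat 0, Int.ofNat 1, 1⟩, true, 1, ⟨⟨Int.ofNat 0, 0⟩, ⟨Int.negSucc 0, 0⟩, ⟨Int.ofNat 0, 0⟩⟩⟩,
  ⟨29, 0, ⟨Int.ofNat 0, Int.ofNat 2, Int.ofNat 1, 1⟩, true, 1, ⟨⟨Int.ofNat 0, 0⟩, ⟨Int.ofNat 1, 0⟩, ⟨Int.ofNat 0, 0⟩⟩⟩,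
  ⟨31, 0, ⟨Int.ofNat 1, Int.ofNat 1, Int.ofNat 1, 1⟩, true, 1, ⟨⟨Int.ofNat 1, 0⟩, ⟨Int.ofNat 0, 0⟩, ⟨Int.ofNat 0, 0⟩⟩⟩,
  ⟨32, 0, ⟨Int.ofNat 1, Int.ofNat 2, Int.ofNat 1, 1⟩, true, 1, ⟨⟨Int.ofNat 1, 0⟩, ⟨Int.ofNat 1, 0⟩, ⟨Int.ofNat 0, 0⟩⟩⟩,
  ⟨33, 9, ⟨Int.ofNat 2, Int.ofNat 0, Int.ofNat 1, 1⟩, true, 1, ⟨⟨Int.negSucc 0, 0⟩, ⟨Int.negSucc 0, 0⟩, ⟨Int.ofNat 0, 0⟩⟩⟩,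
  ⟨34, 9, ⟨Int.ofNat 2, Int.ofNat 1, Int.ofNat 1, 1⟩, true, 1, ⟨⟨Int.negSucc 0, 0⟩, ⟨Int.ofNat 0, 0⟩, ⟨Int.ofNat 0, 0⟩⟩⟩], (Int.negSucc 11, Int.negSucc 3, Int.negSucc 2)⟩,
⟨⟨Int.ofNat 0, Int.ofNat 2, Int.ofNat 1, 1⟩, [⟨0, 3, ⟨Int.ofNat 0, Int.ofNat 0, Int.ofNat 0, 1⟩, true, 1, ⟨⟨Int.ofNat 0, 0⟩, ⟨Int.ofNat 1, 0⟩, ⟨Int.ofNat 1, 0⟩⟩⟩,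
  ⟨1, 0, ⟨Int.ofNat 0, Int.ofNat 1, Int.ofNat 0, 1⟩, true, 1, ⟨⟨Int.ofNat 0, 0⟩, ⟨Int.negSucc 0, 0⟩, ⟨Int.ofNat 1, 0⟩⟩⟩,
  ⟨2, 0, ⟨Int.ofNat 0, Int.ofNat 2, Int.ofNat 0, 1⟩, true, 1, ⟨⟨Int.ofNat 0, 0⟩, ⟨Int.ofNat 0, 0⟩, ⟨Int.ofNat 1, 0⟩⟩⟩,
  ⟨11, 2, ⟨Int.ofNat 0, Int.ofNat 2, Int.ofNat 0, 1⟩, true, 1, ⟨⟨Int.ofNat 0, 0⟩, ⟨Int.ofNat 0, 0⟩, ⟨Int.negSucc 0, 0⟩⟩⟩,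
  ⟨12, 8, ⟨Int.ofNat 1, Int.ofNat 0, Int.ofNat 0, 1⟩, true, 1, ⟨⟨Int.ofNat 1, 0⟩, ⟨Int.ofNat 1, 0⟩, ⟨Int.negSucc 0, 0⟩⟩⟩,
  ⟨14, 2, ⟨Int.ofNat 1, Int.ofNat 2, Int.ofNat 0, 1⟩, true, 1, ⟨⟨Int.ofNat 1, 0⟩, ⟨Int.ofNat 0, 0⟩, ⟨Int.negSucc 0, 0⟩⟩⟩,
  ⟨16, 12, ⟨Int.ofNat 2, Int.ofNat 1, Int.ofNat 0, 1⟩, true, 1, ⟨⟨Int.negSucc 0, 0⟩, ⟨Int.negSucc 0, 0⟩, ⟨Int.negSucc 0, 0⟩⟩⟩,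
  ⟨17, 12, ⟨Int.ofNat 2, Int.ofNat 2, Int.ofNat 0, 1⟩, true, 1, ⟨⟨Int.negSucc 0, 0⟩, ⟨Int.ofNat 0, 0⟩, ⟨Int.negSucc 0, 0⟩⟩⟩,
  ⟨27, 3, ⟨Int.ofNat 0, Int.ofNat 0, Int.ofNat 1, 1⟩, true, 1, ⟨⟨Int.ofNat 0, 0⟩, ⟨Int.ofNat 1, 0⟩, ⟨Int.ofNat 0, 0⟩⟩⟩,
  ⟨28, 0, ⟨Int.ofNat 0, Int.ofNat 1, Int.ofNat 1, 1⟩, true, 1, ⟨⟨Int.ofNat 0, 0⟩, ⟨Int.negSucc 0, 0⟩, ⟨Int.ofNat 0, 0⟩⟩⟩,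
  ⟨30, 3, ⟨Int.ofNat 1, Int.ofNat 0, Int.ofNat 1, 1⟩, true, 1, ⟨⟨Int.ofNat 1, 0⟩, ⟨Int.ofNat 1, 0⟩, ⟨Int.ofNat 0, 0⟩⟩⟩,
  ⟨32, 0, ⟨Int.ofNat 1, Int.ofNat 2, Int.ofNat 1, 1⟩, true, 1, ⟨⟨Int.ofNat 1, 0⟩, ⟨Int.ofNat 0, 0⟩, ⟨Int.ofNat 0, 0⟩⟩⟩,
  ⟨34, 9, ⟨Int.ofNat 2, Int.ofNat 1, Int.ofNat 1, 1⟩, true, 1, ⟨⟨Int.negSucc 0, 0⟩, ⟨Int.negSucc 0, 0⟩, ⟨Int.ofNat 0, 0⟩⟩⟩,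
  ⟨35, 9, ⟨Int.ofNat 2, Int.ofNat 2, Int.ofNat 1, 1⟩, true, 1, ⟨⟨Int.negSucc 0, 0⟩, ⟨Int.ofNat 0, 0⟩, ⟨Int.ofNat 0, 0⟩⟩⟩], (Int.negSucc 11, Int.negSucc 3, Int.negSucc 2)⟩,
⟨⟨Int.ofNat 1, Int.ofNat 0, Int.ofNat 1, 1⟩, [⟨0, 0, ⟨Int.ofNat 0, Int.ofNat 0, Int.ofNat 0, 1⟩, true, 1, ⟨⟨Int.negSucc 0, 0⟩, ⟨Int.ofNat 0, 0⟩, ⟨Int.ofNat 1, 0⟩⟩⟩,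
  ⟨2, 4, ⟨Int.ofNat 0, Int.ofNat 2, Int.ofNat 0, 1⟩, true, 1, ⟨⟨Int.negSucc 0, 0⟩, ⟨Int.negSucc 0, 0⟩, ⟨Int.ofNat 1, 0⟩⟩⟩,
  ⟨3, 0, ⟨Int.ofNat 1, Int.ofNat 0, Int.ofNat 0, 1⟩, true, 1, ⟨⟨Int.ofNat 0, 0⟩, ⟨Int.ofNat 0, 0⟩, ⟨Int.ofNat 1, 0⟩⟩⟩,
  ⟨12, 2, ⟨Int.ofNat 1, Int.ofNat 0, Int.ofNat 0, 1⟩, true, 1, ⟨⟨Int.ofNat 0, 0⟩, ⟨Int.ofNat 0, 0⟩, ⟨Int.negSucc 0, 0⟩⟩⟩,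
  ⟨13, 2, ⟨Int.ofNat 1, Int.ofNat 1, Int.ofNat 0, 1⟩, true, 1, ⟨⟨Int.ofNat 0, 0⟩, ⟨Int.ofNat 1, 0⟩, ⟨Int.negSucc 0, 0⟩⟩⟩,
  ⟨14, 6, ⟨Int.ofNat 1, Int.ofNat 2, Int.ofNat 0, 1⟩, true, 1, ⟨⟨Int.ofNat 0, 0⟩, ⟨Int.negSucc 0, 0⟩, ⟨Int.negSucc 0, 0⟩⟩⟩,
  ⟨15, 2, ⟨Int.ofNat 2, Int.ofNat 0, Int.ofNat 0, 1⟩, true, 1, ⟨⟨Int.ofNat 1, 0⟩, ⟨Int.ofNat 0, 0⟩, ⟨Int.negSucc 0, 0⟩⟩⟩,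
  ⟨16, 2, ⟨Int.ofNat 2, Int.ofNat 1, Int.ofNat 0, 1⟩, true, 1, ⟨⟨Int.ofNat 1, 0⟩, ⟨Int.ofNat 1, 0⟩, ⟨Int.negSucc 0, 0⟩⟩⟩,
  ⟨27, 0, ⟨Int.ofNat 0, Int.ofNat 0, Int.ofNat 1, 1⟩, true, 1, ⟨⟨Int.negSucc 0, 0⟩, ⟨Int.ofNat 0, 0⟩, ⟨Int.ofNat 0, 0⟩⟩⟩,
  ⟨29, 4, ⟨Int.ofNat 0, Int.ofNat 2, Int.ofNat 1, 1⟩, true, 1, ⟨⟨Int.negSucc 0, 0⟩, ⟨Int.negSucc 0, 0⟩, ⟨Int.ofNat 0, 0⟩⟩⟩,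
  ⟨31, 0, ⟨Int.ofNat 1, Int.ofNat 1, Int.ofNat 1, 1⟩, true, 1, ⟨⟨Int.ofNat 0, 0⟩, ⟨Int.ofNat 1, 0⟩, ⟨Int.ofNat 0, 0⟩⟩⟩,
  ⟨32, 4, ⟨Int.ofNat 1, Int.ofNat 2, Int.ofNat 1, 1⟩, true, 1, ⟨⟨Int.ofNat 0, 0⟩, ⟨Int.negSucc 0, 0⟩, ⟨Int.ofNat 0, 0⟩⟩⟩,
  ⟨33, 0, ⟨Int.ofNat 2, Int.ofNat 0, Int.ofNat 1, 1⟩, true, 1, ⟨⟨Int.ofNat 1, 0⟩, ⟨Int.ofNat 0, 0⟩, ⟨Int.ofNat 0, 0⟩⟩⟩,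
  ⟨34, 0, ⟨Int.ofNat 2, Int.ofNat 1, Int.ofNat 1, 1⟩, true, 1, ⟨⟨Int.ofNat 1, 0⟩, ⟨Int.ofNat 1, 0⟩, ⟨Int.ofNat 0, 0⟩⟩⟩], (Int.negSucc 8, Int.negSucc 4, Int.ofNat 12)⟩,
⟨⟨Int.ofNat 1, Int.ofNat 1, Int.ofNat 1, 1⟩, [⟨0, 0, ⟨Int.ofNat 0, Int.ofNat 0, Int.ofNat 0, 1⟩, true, 1, ⟨⟨Int.negSucc 0, 0⟩, ⟨Int.negSucc 0, 0⟩, ⟨Int.ofNat 1, 0⟩⟩⟩,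
  ⟨1, 0, ⟨Int.ofNat 0, Int.ofNat 1, Int.ofNat 0, 1⟩, true, 1, ⟨⟨Int.negSucc 0, 0⟩, ⟨Int.ofNat 0, 0⟩, ⟨Int.ofNat 1, 0⟩⟩⟩,
  ⟨3, 0, ⟨Int.ofNat 1, Int.ofNat 0, Int.ofNat 0, 1⟩, true, 1, ⟨⟨Int.ofNat 0, 0⟩, ⟨Int.negSucc 0, 0⟩, ⟨Int.ofNat 1, 0⟩⟩⟩,
  ⟨4, 0, ⟨Int.ofNat 1, Int.ofNat 1, Int.ofNat 0, 1⟩, true, 1, ⟨⟨Int.ofNat 0, 0⟩, ⟨Int.ofNat 0, 0⟩, ⟨Int.ofNat 1, 0⟩⟩⟩,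
  ⟨13, 2, ⟨Int.ofNat 1, Int.ofNat 1, Int.ofNat 0, 1⟩, true, 1, ⟨⟨Int.ofNat 0, 0⟩, ⟨Int.ofNat 0, 0⟩, ⟨Int.negSucc 0, 0⟩⟩⟩,
  ⟨14, 2, ⟨Int.ofNat 1, Int.ofNat 2, Int.ofNat 0, 1⟩, true, 1, ⟨⟨Int.ofNat 0, 0⟩, ⟨Int.ofNat 1, 0⟩, ⟨Int.negSucc 0, 0⟩⟩⟩,
  ⟨16, 2, ⟨Int.ofNat 2, Int.ofNat 1, Int.ofNat 0, 1⟩, true, 1, ⟨⟨Int.ofNat 1, 0⟩, ⟨Int.ofNat 0, 0⟩, ⟨Int.negSucc 0, 0⟩⟩⟩,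
  ⟨17, 2, ⟨Int.ofNat 2, Int.ofNat 2, Int.ofNat 0, 1⟩, true, 1, ⟨⟨Int.ofNat 1, 0⟩, ⟨Int.ofNat 1, 0⟩, ⟨Int.negSucc 0, 0⟩⟩⟩,
  ⟨27, 0, ⟨Int.ofNat 0, Int.ofNat 0, Int.ofNat 1, 1⟩, true, 1, ⟨⟨Int.negSucc 0, 0⟩, ⟨Int.negSucc 0, 0⟩, ⟨Int.ofNat 0, 0⟩⟩⟩,
  ⟨28, 0, ⟨Int.ofNat 0, Int.ofNat 1, Int.ofNat 1, 1⟩, true, 1, ⟨⟨Int.negSucc 0, 0⟩, ⟨Int.ofNat 0, 0⟩, ⟨Int.ofNat 0, 0⟩⟩⟩,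
  ⟨30, 0, ⟨Int.ofNat 1, Int.ofNat 0, Int.ofNat 1, 1⟩, true, 1, ⟨⟨Int.ofNat 0, 0⟩, ⟨Int.negSucc 0, 0⟩, ⟨Int.ofNat 0, 0⟩⟩⟩,
  ⟨32, 0, ⟨Int.ofNat 1, Int.ofNat 2, Int.ofNat 1, 1⟩, true, 1, ⟨⟨Int.ofNat 0, 0⟩, ⟨Int.ofNat 1, 0⟩, ⟨Int.ofNat 0, 0⟩⟩⟩,
  ⟨34, 0, ⟨Int.ofNat 2, Int.ofNat 1, Int.ofNat 1, 1⟩, true, 1, ⟨⟨Int.ofNat 1, 0⟩, ⟨Int.ofNat 0, 0⟩, ⟨Int.ofNat 0, 0⟩⟩⟩,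
  ⟨35, 0, ⟨Int.ofNat 2, Int.ofNat 2, Int.ofNat 1, 1⟩, true, 1, ⟨⟨Int.ofNat 1, 0⟩, ⟨Int.ofNat 1, 0⟩, ⟨Int.ofNat 0, 0⟩⟩⟩], (Int.negSucc 4, Int.negSucc 11, Int.ofNat 9)⟩,
⟨⟨Int.ofNat 1, Int.ofNat 2, Int.ofNat 1, 1⟩, [⟨1, 0, ⟨Int.ofNat 0, Int.ofNat 1, Int.ofNat 0, 1⟩, true, 1, ⟨⟨Int.negSucc 0, 0⟩, ⟨Int.negSucc 0, 0⟩, ⟨Int.ofNat 1, 0⟩⟩⟩,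
  ⟨2, 0, ⟨Int.ofNat 0, Int.ofNat 2, Int.ofNat 0, 1⟩, true, 1, ⟨⟨Int.negSucc 0, 0⟩, ⟨Int.ofNat 0, 0⟩, ⟨Int.ofNat 1, 0⟩⟩⟩,
  ⟨3, 3, ⟨Int.ofNat 1, Int.ofNat 0, Int.ofNat 0, 1⟩, true, 1, ⟨⟨Int.ofNat 0, 0⟩, ⟨Int.ofNat 1, 0⟩, ⟨Int.ofNat 1, 0⟩⟩⟩,
  ⟨4, 0, ⟨Int.ofNat 1, Int.ofNat 1, Int.ofNat 0, 1⟩, true, 1, ⟨⟨Int.ofNat 0, 0⟩, ⟨Int.negSucc 0, 0⟩, ⟨Int.ofNat 1, 0⟩⟩⟩,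
  ⟨5, 0, ⟨Int.ofNat 1, Int.ofNat 2, Int.ofNat 0, 1⟩, true, 1, ⟨⟨Int.ofNat 0, 0⟩, ⟨Int.ofNat 0, 0⟩, ⟨Int.ofNat 1, 0⟩⟩⟩,
  ⟨14, 2, ⟨Int.ofNat 1, Int.ofNat 2, Int.ofNat 0, 1⟩, true, 1, ⟨⟨Int.ofNat 0, 0⟩, ⟨Int.ofNat 0, 0⟩, ⟨Int.negSucc 0, 0⟩⟩⟩,
  ⟨15, 8, ⟨Int.ofNat 2, Int.ofNat 0, Int.ofNat 0, 1⟩, true, 1, ⟨⟨Int.ofNat 1, 0⟩, ⟨Int.ofNat 1, 0⟩, ⟨Int.negSucc 0, 0⟩⟩⟩,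
  ⟨17, 2, ⟨Int.ofNat 2, Int.ofNat 2, Int.ofNat 0, 1⟩, true, 1, ⟨⟨Int.ofNat 1, 0⟩, ⟨Int.ofNat 0, 0⟩, ⟨Int.negSucc 0, 0⟩⟩⟩,
  ⟨28, 0, ⟨Int.ofNat 0, Int.ofNat 1, Int.ofNat 1, 1⟩, true, 1, ⟨⟨Int.negSucc 0, 0⟩, ⟨Int.negSucc 0, 0⟩, ⟨Int.ofNat 0, 0⟩⟩⟩,
  ⟨29, 0, ⟨Int.ofNat 0, Int.ofNat 2, Int.ofNat 1, 1⟩, true, 1, ⟨⟨Int.negSucc 0, 0⟩, ⟨Int.ofNat 0, 0⟩, ⟨Int.ofNat 0, 0⟩⟩⟩,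
  ⟨30, 3, ⟨Int.ofNat 1, Int.ofNat 0, Int.ofNat 1, 1⟩, true, 1, ⟨⟨Int.ofNat 0, 0⟩, ⟨Int.ofNat 1, 0⟩, ⟨Int.ofNat 0, 0⟩⟩⟩,
  ⟨31, 0, ⟨Int.ofNat 1, Int.ofNat 1, Int.ofNat 1, 1⟩, true, 1, ⟨⟨Int.ofNat 0, 0⟩, ⟨Int.negSucc 0, 0⟩, ⟨Int.ofNat 0, 0⟩⟩⟩,
  ⟨33, 3, ⟨Int.ofNat 2, Int.ofNat 0, Int.ofNat 1, 1⟩, true, 1, ⟨⟨Int.ofNat 1, 0⟩, ⟨Int.ofNat 1, 0⟩, ⟨Int.ofNat 0, 0⟩⟩⟩,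
  ⟨35, 0, ⟨Int.ofNat 2, Int.ofNat 2, Int.ofNat 1, 1⟩, true, 1, ⟨⟨Int.ofNat 1, 0⟩, ⟨Int.ofNat 0, 0⟩, ⟨Int.ofNat 0, 0⟩⟩⟩], (Int.ofNat 3, Int.negSucc 4, Int.ofNat 9)⟩,
⟨⟨Int.ofNat 2, Int.ofNat 0, Int.ofNat 1, 1⟩, [⟨0, 10, ⟨Int.ofNat 0, Int.ofNat 0, Int.ofNat 0, 1⟩, true, 1, ⟨⟨Int.ofNat 1, 0⟩, ⟨Int.ofNat 0, 0⟩, ⟨Int.ofNat 1, 0⟩⟩⟩,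
  ⟨1, 10, ⟨Int.ofNat 0, Int.ofNat 1, Int.ofNat 0, 1⟩, true, 1, ⟨⟨Int.ofNat 1, 0⟩, ⟨Int.ofNat 1, 0⟩, ⟨Int.ofNat 1, 0⟩⟩⟩,
  ⟨3, 0, ⟨Int.ofNat 1, Int.ofNat 0, Int.ofNat 0, 1⟩, true, 1, ⟨⟨Int.negSucc 0, 0⟩, ⟨Int.ofNat 0, 0⟩, ⟨Int.ofNat 1, 0⟩⟩⟩,
  ⟨5, 4, ⟨Int.ofNat 1, Int.ofNat 2, Int.ofNat 0, 1⟩, true, 1, ⟨⟨Int.negSucc 0, 0⟩, ⟨Int.negSucc 0, 0⟩, ⟨Int.ofNat 1, 0⟩⟩⟩,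
  ⟨6, 0, ⟨Int.ofNat 2, Int.ofNat 0, Int.ofNat 0, 1⟩, true, 1, ⟨⟨Int.ofNat 0, 0⟩, ⟨Int.ofNat 0, 0⟩, ⟨Int.ofNat 1, 0⟩⟩⟩,
  ⟨15, 2, ⟨Int.ofNat 2, Int.ofNat 0, Int.ofNat 0, 1⟩, true, 1, ⟨⟨Int.ofNat 0, 0⟩, ⟨Int.ofNat 0, 0⟩, ⟨Int.negSucc 0, 0⟩⟩⟩,
  ⟨16, 2, ⟨Int.ofNat 2, Int.ofNat 1, Int.ofNat 0, 1⟩, true, 1, ⟨⟨Int.ofNat 0, 0⟩, ⟨Int.ofNat 1, 0⟩, ⟨Int.negSucc 0, 0⟩⟩⟩,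
  ⟨17, 6, ⟨Int.ofNat 2, Int.ofNat 2, Int.ofNat 0, 1⟩, true, 1, ⟨⟨Int.ofNat 0, 0⟩, ⟨Int.negSucc 0, 0⟩, ⟨Int.negSucc 0, 0⟩⟩⟩,
  ⟨27, 10, ⟨Int.ofNat 0, Int.ofNat 0, Int.ofNat 1, 1⟩, true, 1, ⟨⟨Int.ofNat 1, 0⟩, ⟨Int.ofNat 0, 0⟩, ⟨Int.ofNat 0, 0⟩⟩⟩,
  ⟨28, 10, ⟨Int.ofNat 0, Int.ofNat 1, Int.ofNat 1, 1⟩, true, 1, ⟨⟨Int.ofNat 1, 0⟩, ⟨Int.ofNat 1, 0⟩, ⟨Int.ofNat 0, 0⟩⟩⟩,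
  ⟨30, 0, ⟨Int.ofNat 1, Int.ofNat 0, Int.ofNat 1, 1⟩, true, 1, ⟨⟨Int.negSucc 0, 0⟩, ⟨Int.ofNat 0, 0⟩, ⟨Int.ofNat 0, 0⟩⟩⟩,
  ⟨32, 4, ⟨Int.ofNat 1, Int.ofNat 2, Int.ofNat 1, 1⟩, true, 1, ⟨⟨Int.negSucc 0, 0⟩, ⟨Int.negSucc 0, 0⟩, ⟨Int.ofNat 0, 0⟩⟩⟩,
  ⟨34, 0, ⟨Int.ofNat 2, Int.ofNat 1, Int.ofNat 1, 1⟩, true, 1, ⟨⟨Int.ofNat 0, 0⟩, ⟨Int.ofNat 1, 0⟩, ⟨Int.ofNat 0, 0⟩⟩⟩,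
  ⟨35, 4, ⟨Int.ofNat 2, Int.ofNat 2, Int.ofNat 1, 1⟩, true, 1, ⟨⟨Int.ofNat 0, 0⟩, ⟨Int.negSucc 0, 0⟩, ⟨Int.ofNat 0, 0⟩⟩⟩], (Int.negSucc 11, Int.negSucc 6, Int.ofNat 9)⟩,
⟨⟨Int.ofNat 2, Int.ofNat 1, Int.ofNat 1, 1⟩, [⟨1, 10, ⟨Int.ofNat 0, Int.ofNat 1, Int.ofNat 0, 1⟩, true, 1, ⟨⟨Int.ofNat 1, 0⟩, ⟨Int.ofNat 0, 0⟩, ⟨Int.ofNat 1, 0⟩⟩⟩,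
  ⟨2, 10, ⟨Int.ofNat 0, Int.ofNat 2, Int.ofNat 0, 1⟩, true, 1, ⟨⟨Int.ofNat 1, 0⟩, ⟨Int.ofNat 1, 0⟩, ⟨Int.ofNat 1, 0⟩⟩⟩,
  ⟨3, 0, ⟨Int.ofNat 1, Int.ofNat 0, Int.ofNat 0, 1⟩, true, 1, ⟨⟨Int.negSucc 0, 0⟩, ⟨Int.negSucc 0, 0⟩, ⟨Int.ofNat 1, 0⟩⟩⟩,
  ⟨4, 0, ⟨Int.ofNat 1, Int.ofNat 1, Int.ofNat 0, 1⟩, true, 1, ⟨⟨Int.negSucc 0, 0⟩, ⟨Int.ofNat 0, 0⟩, ⟨Int.ofNat 1, 0⟩⟩⟩,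
  ⟨6, 0, ⟨Int.ofNat 2, Int.ofNat 0, Int.ofNat 0, 1⟩, true, 1, ⟨⟨Int.ofNat 0, 0⟩, ⟨Int.negSucc 0, 0⟩, ⟨Int.ofNat 1, 0⟩⟩⟩,
  ⟨7, 0, ⟨Int.ofNat 2, Int.ofNat 1, Int.ofNat 0, 1⟩, true, 1, ⟨⟨Int.ofNat 0, 0⟩, ⟨Int.ofNat 0, 0⟩, ⟨Int.ofNat 1, 0⟩⟩⟩,
  ⟨16, 2, ⟨Int.ofNat 2, Int.ofNat 1, Int.ofNat 0, 1⟩, true, 1, ⟨⟨Int.ofNat 0, 0⟩, ⟨Int.ofNat 0, 0⟩, ⟨Int.negSucc 0, 0⟩⟩⟩,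
  ⟨17, 2, ⟨Int.ofNat 2, Int.ofNat 2, Int.ofNat 0, 1⟩, true, 1, ⟨⟨Int.ofNat 0, 0⟩, ⟨Int.ofNat 1, 0⟩, ⟨Int.negSucc 0, 0⟩⟩⟩,
  ⟨28, 10, ⟨Int.ofNat 0, Int.ofNat 1, Int.ofNat 1, 1⟩, true, 1, ⟨⟨Int.ofNat 1, 0⟩, ⟨Int.ofNat 0, 0⟩, ⟨Int.ofNat 0, 0⟩⟩⟩,
  ⟨29, 10, ⟨Int.ofNat 0, Int.ofNat 2, Int.ofNat 1, 1⟩, true, 1, ⟨⟨Int.ofNat 1, 0⟩, ⟨Int.ofNat 1, 0⟩, ⟨Int.ofNat 0, 0⟩⟩⟩,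
  ⟨30, 0, ⟨Int.ofNat 1, Int.ofNat 0, Int.ofNat 1, 1⟩, true, 1, ⟨⟨Int.negSucc 0, 0⟩, ⟨Int.negSucc 0, 0⟩, ⟨Int.ofNat 0, 0⟩⟩⟩,
  ⟨31, 0, ⟨Int.ofNat 1, Int.ofNat 1, Int.ofNat 1, 1⟩, true, 1, ⟨⟨Int.negSucc 0, 0⟩, ⟨Int.ofNat 0, 0⟩, ⟨Int.ofNat 0, 0⟩⟩⟩,
  ⟨33, 0, ⟨Int.ofNat 2, Int.ofNat 0, Int.ofNat 1, 1⟩, true, 1, ⟨⟨Int.ofNat 0, 0⟩, ⟨Int.negSucc 0, 0⟩, ⟨Int.ofNat 0, 0⟩⟩⟩,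
  ⟨35, 0, ⟨Int.ofNat 2, Int.ofNat 2, Int.ofNat 1, 1⟩, true, 1, ⟨⟨Int.ofNat 0, 0⟩, ⟨Int.ofNat 1, 0⟩, ⟨Int.ofNat 0, 0⟩⟩⟩], (Int.negSucc 11, Int.negSucc 3, Int.ofNat 9)⟩,
⟨⟨Int.ofNat 2, Int.ofNat 2, Int.ofNat 1, 1⟩, [⟨0, 14, ⟨Int.ofNat 0, Int.ofNat 0, Int.ofNat 0, 1⟩, true, 1, ⟨⟨Int.ofNat 1, 0⟩, ⟨Int.ofNat 1, 0⟩, ⟨Int.ofNat 1, 0⟩⟩⟩,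
  ⟨2, 10, ⟨Int.ofNat 0, Int.ofNat 2, Int.ofNat 0, 1⟩, true, 1, ⟨⟨Int.ofNat 1, 0⟩, ⟨Int.ofNat 0, 0⟩, ⟨Int.ofNat 1, 0⟩⟩⟩,
  ⟨4, 0, ⟨Int.ofNat 1, Int.ofNat 1, Int.ofNat 0, 1⟩, true, 1, ⟨⟨Int.negSucc 0, 0⟩, ⟨Int.negSucc 0, 0⟩, ⟨Int.ofNat 1, 0⟩⟩⟩,
  ⟨5, 0, ⟨Int.ofNat 1, Int.ofNat 2, Int.ofNat 0, 1⟩, true, 1, ⟨⟨Int.negSucc 0, 0⟩, ⟨Int.ofNat 0, 0⟩, ⟨Int.ofNat 1, 0⟩⟩⟩,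
  ⟨6, 3, ⟨Int.ofNat 2, Int.ofNat 0, Int.ofNat 0, 1⟩, true, 1, ⟨⟨Int.ofNat 0, 0⟩, ⟨Int.ofNat 1, 0⟩, ⟨Int.ofNat 1, 0⟩⟩⟩,
  ⟨7, 0, ⟨Int.ofNat 2, Int.ofNat 1, Int.ofNat 0, 1⟩, true, 1, ⟨⟨Int.ofNat 0, 0⟩, ⟨Int.negSucc 0, 0⟩, ⟨Int.ofNat 1, 0⟩⟩⟩,
  ⟨8, 0, ⟨Int.ofNat 2, Int.ofNat 2, Int.ofNat 0, 1⟩, true, 1, ⟨⟨Int.ofNat 0, 0⟩, ⟨Int.ofNat 0, 0⟩, ⟨Int.ofNat 1, 0⟩⟩⟩,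
  ⟨17, 2, ⟨Int.ofNat 2, Int.ofNat 2, Int.ofNat 0, 1⟩, true, 1, ⟨⟨Int.ofNat 0, 0⟩, ⟨Int.ofNat 0, 0⟩, ⟨Int.negSucc 0, 0⟩⟩⟩,
  ⟨27, 14, ⟨Int.ofNat 0, Int.ofNat 0, Int.ofNat 1, 1⟩, true, 1, ⟨⟨Int.ofNat 1, 0⟩, ⟨Int.ofNat 1, 0⟩, ⟨Int.ofNat 0, 0⟩⟩⟩,
  ⟨29, 10, ⟨Int.ofNat 0, Int.ofNat 2, Int.ofNat 1, 1⟩, true, 1, ⟨⟨Int.ofNat 1, 0⟩, ⟨Int.ofNat 0, 0⟩, ⟨Int.ofNat 0, 0⟩⟩⟩,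
  ⟨31, 0, ⟨Int.ofNat 1, Int.ofNat 1, Int.ofNat 1, 1⟩, true, 1, ⟨⟨Int.negSucc 0, 0⟩, ⟨Int.negSucc 0, 0⟩, ⟨Int.ofNat 0, 0⟩⟩⟩,
  ⟨32, 0, ⟨Int.ofNat 1, Int.ofNat 2, Int.ofNat 1, 1⟩, true, 1, ⟨⟨Int.negSucc 0, 0⟩, ⟨Int.ofNat 0, 0⟩, ⟨Int.ofNat 0, 0⟩⟩⟩,
  ⟨33, 3, ⟨Int.ofNat 2, Int.ofNat 0, Int.ofNat 1, 1⟩, true, 1, ⟨⟨Int.ofNat 0, 0⟩, ⟨Int.ofNat 1, 0⟩, ⟨Int.ofNat 0, 0⟩⟩⟩,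
  ⟨34, 0, ⟨Int.ofNat 2, Int.ofNat 1, Int.ofNat 1, 1⟩, true, 1, ⟨⟨Int.ofNat 0, 0⟩, ⟨Int.negSucc 0, 0⟩, ⟨Int.ofNat 0, 0⟩⟩⟩], (Int.ofNat 4, Int.negSucc 7, Int.ofNat 9)⟩]
theorem cert_2_ok : chkVs 36 17 1 (fun i => Toy66.tbox (let1 i)) lab pos (foldN 27 18) (sideN 27) T 24 cert_2 = true := by decide +kernel
theorem fans (v : ℕ) (hv : v < 36) : ∃ c, chkV 36 17 1 (fun i => Toy66.tbox (let1 i)) lab pos (foldN 27 18) (sideN 27) T v c = true := by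
  by_cases h0 : v < 12
  · exact chkVs_spec cert_0_ok (by omega) (by simp [cert_0]; omega)
  by_cases h1 : v < 24
  · exact chkVs_spec cert_1_ok (by omega) (by simp [cert_1]; omega)
  exact chkVs_spec cert_2_ok (by omega) (by simp [cert_2]; omega)

/-- the toy manifold is a closed affine 3-manifold -/
theorem toy : ∃ _ : ChartedSpace (Fin 3 → ℝ) (geo ((TF 36 T).map orient)),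
    IsClosedAffine 3 (geo ((TF 36 T).map orient)) := by
  obtain ⟨-, -, hconn, -⟩ := comb_all chk chkInj
  have hI : chkIncr 36 T = true := by
    have h1 := chk
    unfold chkComb at h1
    simp only [Bool.and_eq_true] at h1
    exact h1.1.1.1.2
  exact closed_of_complex (labs.isAffineComplex
    (fans_of_chk hI (comb_of_chk chk) R one_pos lab pos (foldN 27 18) (sideN 27) fans) hconn)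
end Pool.CX.Toy66
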